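import Pool.Agent.T4h91.EH.Comb

set_option autoImplicit false

/-! Many exceptional pairs beyond `2 ^ ((1 + ε) π(n))`. -/

open Finset Polynomial Filter Topology

namespace Pool.Agent.T4h91.EH

open Pool.Agent.R920.CH Pool.Agent.R852.LK

/-- `n ^ 2 ≤ 2 ^ π(n)` -/
lemma sq_le_pc : ∀ᶠ n : ℕ in atTop, (n : ℝ) ^ 2 ≤ (2 : ℝ) ^ (Nat.primeCounting n) := by
  have h1 := Pool.Agent.R852.LK.card_PP (1 / 2) (by norm_num)
  have h2 : ∀ᶠ n : ℕ in atTop, Real.log (n : ℝ) ≤ (Real.log 2 / 2) * (n : ℝ) ^ (1 / 2 : ℝ) := by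
    have h3 := (isLittleO_log_rpow_atTop (by norm_num : (0 : ℝ) < 1 / 2)).bound
      (show (0 : ℝ) < Real.log 2 / 2 by have := Real.log_pos one_lt_two; positivity)
    have h4 := tendsto_natCast_atTop_atTop (R := ℝ) |>.eventually h3
    filter_upwards [h4, eventually_ge_atTop 1] with n hn hn1
    rw [Real.norm_of_nonneg (Real.log_nonneg (by exact_mod_cast hn1)),
      Real.norm_of_nonneg (Real.rpow_nonneg (Nat.cast_nonneg _) _)] at hn
    exact hn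
  filter_upwards [h1, h2, eventually_ge_atTop 1] with n h1 h2 hn
  have hn0 : (0 : ℝ) < n := by exact_mod_cast hn
  have h3 : ((Icc 1 n).filter Nat.Prime).card ≤ Nat.primeCounting n := by
    rw [← Pool.Agent.W57.SW.card_pr]
    refine card_le_card fun p hp => ?_
    rw [mem_filter, mem_Icc] at hp
    exact Pool.Agent.W57.SW.mem_pr.2 ⟨hp.2, hp.1.2⟩
  have h4 : (n : ℝ) ^ (1 / 2 : ℝ) ≤ (Nat.primeCounting n : ℝ) := by
    have e : (1 : ℝ) - 1 / 2 = 1 / 2 := by norm_num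
    rw [e] at h1
    exact h1.trans (by exact_mod_cast h3)
  rw [← Real.log_le_log_iff (by positivity) (by positivity), Real.log_pow, Real.log_pow]
  have h5 := Real.log_pos one_lt_two
  have h6 : (Real.log 2 / 2) * (n : ℝ) ^ (1 / 2 : ℝ) ≤ (Real.log 2 / 2) * (Nat.primeCounting n : ℝ) :=
    mul_le_mul_of_nonneg_left h4 (by positivity)
  push_cast
  linarith

/-- **Many exceptional pairs beyond `2 ^ ((1 + ε) π(n))`.** -/
theorem many2 (ε : ℝ) (hε : 0 < ε) : ∀ᶠ n : ℕ in atTop, ∀ H : ℝ,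
    (2 : ℝ) ^ ((1 + ε) * (Nat.primeCounting n : ℝ)) ≤ H →
    ∃ S : Finset (ℤ × ℤ), (∀ c ∈ S, |(c.1 : ℝ)| ≤ H ∧ |(c.2 : ℝ)| ≤ H ^ 2 ∧
      RiemannRoch n (poly2 c.1 c.2) ∧ ¬ ∃ a b : ℤ, c.1 = a + b ∧ c.2 = a * b) ∧
      H ^ (2 + ε / (2 + 2 * ε)) ≤ (S.card : ℝ) := by
  set e0 : ℝ := ε / (1 + ε) with he0
  have he0' : 0 < e0 := by positivity
  have he1 : e0 < 1 := by rw [he0, div_lt_one (by positivity)]; linarith
  have hexp : ε / (2 + 2 * ε) = e0 / 2 := by rw [he0]; field_simp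
  set τ : ℝ := e0 / 8 with hτ
  have hτ0 : 0 < τ := by positivity
  have g1 := Pool.Agent.R852.LK.card_PP (τ / 2) (by positivity)
  have g1' : ∀ᶠ x : ℝ in atTop, (⌊x⌋₊ : ℝ) ^ (1 - τ / 2) ≤
      (((Icc 1 ⌊x⌋₊).filter Nat.Prime).card : ℝ) := tendsto_nat_floor_atTop.eventually g1
  have g2 : ∀ᶠ x : ℝ in atTop, (128 : ℝ) ≤ x ^ (τ / 2) :=
    (tendsto_rpow_atTop (by positivity : (0 : ℝ) < τ / 2)).eventually_ge_atTop _
  obtain ⟨x₀, hx₀⟩ := (g1'.and (g2.and (eventually_ge_atTop 8))).exists_forall_of_atTop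
  filter_upwards [sq_le_pc, eventually_ge_atTop ⌈x₀⌉₊, eventually_ge_atTop 2] with n h1 h2 h3 H hH
  have hn0 : (0 : ℝ) < n := by positivity
  have hn2 : (2 : ℝ) ≤ n := by exact_mod_cast h3
  set K : ℝ := (2 : ℝ) ^ (Nat.primeCounting n) with hK
  have hK0 : 0 < K := by positivity
  have hK1 : 1 ≤ K := one_le_pow₀ (by norm_num)
  have hKH : K ^ (1 + ε) ≤ H := by
    have e : K ^ (1 + ε) = (2 : ℝ) ^ ((1 + ε) * (Nat.primeCounting n : ℝ)) := by
      rw [hK, ← Real.rpow_natCast, ← Real.rpow_mul (by norm_num), mul_comm]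
    rw [e]; exact hH
  have hKleH : K ≤ H := by
    refine le_trans ?_ hKH
    calc K = K ^ (1 : ℝ) := (Real.rpow_one K).symm
      _ ≤ K ^ (1 + ε) := Real.rpow_le_rpow_of_exponent_le hK1 (by linarith)
  have hnH2 : (n : ℝ) ^ 2 ≤ H := h1.trans hKleH
  have hnH : (n : ℝ) ≤ H := by nlinarith
  have hxH : x₀ ≤ H := (Nat.le_ceil x₀).trans ((by exact_mod_cast h2 : (⌈x₀⌉₊ : ℝ) ≤ n).trans hnH)
  obtain ⟨f1, f2, f3⟩ := hx₀ H hxH
  have hH0 : 0 < H := by linarith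
  have hH1 : 1 ≤ H := by linarith
  have hKb : K ≤ H ^ (1 - e0) := by
    have e : (1 - e0) = (1 + ε)⁻¹ := by rw [he0]; field_simp; ring
    rw [e]
    calc K = (K ^ (1 + ε)) ^ (1 + ε)⁻¹ := by
          rw [← Real.rpow_mul hK0.le, mul_inv_cancel₀ (by positivity), Real.rpow_one]
      _ ≤ H ^ (1 + ε)⁻¹ := Real.rpow_le_rpow (by positivity) hKH (by positivity)
  set h : ℕ := ⌊H⌋₊ with hh
  have hhH : (h : ℝ) ≤ H := Nat.floor_le hH0.le
  have hhH2 : H / 2 ≤ h := by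
    have := Nat.lt_floor_add_one H
    linarith
  set P := (Icc 1 h).filter fun l => l.Prime ∧ n < l with hPdef
  have hPc : (((Icc 1 h).filter Nat.Prime).card : ℝ) ≤ (P.card : ℝ) + n := by
    have h4 : (Icc 1 h).filter Nat.Prime ⊆ P ∪ Icc 1 n := by
      intro l hl
      rw [mem_filter] at hl
      rw [mem_union, hPdef, mem_filter, mem_Icc]
      have h5 := (mem_Icc.1 hl.1).1
      rcases lt_or_ge n l with h6 | h6
      · exact Or.inl ⟨mem_Icc.1 hl.1, hl.2, h6⟩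
      · exact Or.inr (mem_Icc.2 ⟨h5, h6⟩)
    have h5 := (card_le_card h4).trans (card_union_le _ _)
    rw [Nat.card_Icc, Nat.add_sub_cancel] at h5
    exact_mod_cast h5
  have hPlow : H ^ (1 - τ) ≤ (P.card : ℝ) := by
    have h4 : (H / 2) ^ (1 - τ / 2) ≤ (h : ℝ) ^ (1 - τ / 2) :=
      Real.rpow_le_rpow (by positivity) hhH2 (by linarith)
    have h5 : 64 * H ^ (1 - τ) ≤ (H / 2) ^ (1 - τ / 2) := by
      rw [Real.div_rpow hH0.le (by norm_num)]
      have h6 : (2 : ℝ) ^ (1 - τ / 2) ≤ 2 := by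
        calc (2 : ℝ) ^ (1 - τ / 2) ≤ 2 ^ (1 : ℝ) :=
              Real.rpow_le_rpow_of_exponent_le (by norm_num) (by linarith)
          _ = 2 := by norm_num
      rw [le_div_iff₀ (by positivity)]
      have h7 : H ^ (1 - τ / 2) = H ^ (1 - τ) * H ^ (τ / 2) := by
        rw [← Real.rpow_add hH0]; congr 1; ring
      rw [h7]
      have h8 : 0 < H ^ (1 - τ) := by positivity
      calc 64 * H ^ (1 - τ) * 2 ^ (1 - τ / 2) ≤ 64 * H ^ (1 - τ) * 2 := by gcongr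
        _ = H ^ (1 - τ) * 128 := by ring
        _ ≤ _ := by gcongr
    have h6 : (n : ℝ) ≤ H ^ (1 - τ) := by
      calc (n : ℝ) = ((n : ℝ) ^ 2) ^ (1 / 2 : ℝ) := by
            rw [← Real.rpow_natCast, ← Real.rpow_mul hn0.le]; norm_num
        _ ≤ H ^ (1 / 2 : ℝ) := Real.rpow_le_rpow (by positivity) hnH2 (by norm_num)
        _ ≤ H ^ (1 - τ) := Real.rpow_le_rpow_of_exponent_le hH1 (by linarith)
    have h8 : 0 < H ^ (1 - τ) := by positivity
    linarith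
  have hGc : 2 * (4 * 2 ^ (Nat.primeCounting n)) ≤ P.card := by
    have h4 : 8 * H ^ (1 - e0) ≤ H ^ (1 - τ) := by
      have h5 : H ^ (1 - τ) = H ^ (1 - e0) * H ^ (e0 - τ) := by
        rw [← Real.rpow_add hH0]; congr 1; ring
      have h6 : (8 : ℝ) ≤ H ^ (e0 - τ) := by
        have : H ^ (τ / 2) ≤ H ^ (e0 - τ) := Real.rpow_le_rpow_of_exponent_le hH1 (by linarith)
        linarith
      rw [h5]
      have h8 : 0 < H ^ (1 - e0) := by positivity
      nlinarith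
    have h5 : ((2 * (4 * 2 ^ (Nat.primeCounting n)) : ℕ) : ℝ) ≤ (P.card : ℝ) := by
      push_cast
      rw [← hK]
      linarith
    exact_mod_cast h5
  set J : ℕ := ⌊H / 4⌋₊ with hJ
  have hJ1 : 2 * J ≤ h + 1 := by
    have h4 : (J : ℝ) ≤ H / 4 := Nat.floor_le (by positivity)
    have h5 : ((2 * J : ℕ) : ℝ) ≤ ((h + 1 : ℕ) : ℝ) := by
      push_cast
      linarith
    exact_mod_cast h5
  have hJ2 : H / 8 ≤ (J : ℝ) := by
    have := Nat.lt_floor_add_one (H / 4)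
    linarith
  obtain ⟨S, hS1, hS2⟩ := comb n h J h3 hJ1 hGc
  refine ⟨S, ?_, ?_⟩
  · intro c hc
    obtain ⟨c1, c2, c3, c4, c5⟩ := hS1 c hc
    have hh2 : (h : ℝ) ^ 2 ≤ H ^ 2 := pow_le_pow_left₀ (Nat.cast_nonneg _) hhH 2
    refine ⟨?_, ?_, c4, c5⟩
    · rw [abs_of_nonneg (by exact_mod_cast c1)]
      have : (c.1 : ℝ) ≤ (h : ℝ) := by exact_mod_cast c2
      linarith
    · have : |(c.2 : ℝ)| ≤ (h : ℝ) ^ 2 := by exact_mod_cast c3
      linarith
  · have h4 : (J : ℝ) * (P.card : ℝ) ^ 2 ≤ 16 * K * (S.card : ℝ) := by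
      rw [hK]; exact_mod_cast hS2
    have h5 : (H / 8) * (H ^ (1 - τ)) ^ 2 ≤ (J : ℝ) * (P.card : ℝ) ^ 2 := by gcongr
    have h6 : 16 * K * (S.card : ℝ) ≤ 16 * H ^ (1 - e0) * (S.card : ℝ) := by gcongr
    have h7 : (H / 8) * (H ^ (1 - τ)) ^ 2 ≤ 16 * H ^ (1 - e0) * (S.card : ℝ) := h5.trans (h4.trans h6)
    have h8 : (H : ℝ) * (H ^ (1 - τ)) ^ 2 = H ^ (1 - e0) * H ^ (2 + e0 - 2 * τ) := by
      rw [← Real.rpow_natCast, ← Real.rpow_mul hH0.le, ← Real.rpow_add hH0]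
      nth_rw 1 [← Real.rpow_one H]
      rw [← Real.rpow_add hH0]
      congr 1
      push_cast
      ring
    have h9 : 0 < H ^ (1 - e0) := by positivity
    have h10 : H ^ (2 + e0 - 2 * τ) ≤ 128 * (S.card : ℝ) := by
      have h11 : H ^ (1 - e0) * H ^ (2 + e0 - 2 * τ) ≤ H ^ (1 - e0) * (128 * (S.card : ℝ)) := by
        rw [← h8]; nlinarith
      exact le_of_mul_le_mul_left h11 h9
    have h12 : H ^ (2 + e0 - 2 * τ) = H ^ (2 + e0 / 2) * H ^ (2 * τ) := by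
      rw [← Real.rpow_add hH0]; congr 1; rw [hτ]; ring
    have h13 : (128 : ℝ) ≤ H ^ (2 * τ) := by
      have : H ^ (τ / 2) ≤ H ^ (2 * τ) := Real.rpow_le_rpow_of_exponent_le hH1 (by linarith)
      linarith
    rw [hexp]
    have h14 : 0 < H ^ (2 + e0 / 2) := by positivity
    rw [h12] at h10
    nlinarith

end Pool.Agent.T4h91.EH
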