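import Pool.Agent.T4h91.EH.Sq

set_option autoImplicit false

/-! Many pairs whose discriminant is a product of two primes, by a box argument. -/

open Finset Polynomial

namespace Pool.Agent.T4h91.EH

open Pool.Agent.R920.CH Pool.Agent.R852.LK

lemma pigeon {β : Type*} [DecidableEq β] (P : Finset ℕ) (T : Finset β) (f : ℕ → β)
    (hf : ∀ a ∈ P, f a ∈ T) (h : 2 * T.card ≤ P.card) :
    P.card ^ 2 ≤ 4 * T.card * ((P ×ˢ P).filter fun x => x.1 < x.2 ∧ f x.1 = f x.2).card := by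
  classical
  set N := ((P ×ˢ P).filter fun x => x.1 < x.2 ∧ f x.1 = f x.2).card with hN
  have h1 : P.card = ∑ t ∈ T, (P.filter fun a => f a = t).card := card_eq_sum_card_fiberwise hf
  have h2 : P.card ^ 2 ≤ T.card * ∑ t ∈ T, (P.filter fun a => f a = t).card ^ 2 := by
    rw [h1]
    exact sq_sum_le_card_mul_sum_sq
  have h3 : ∑ t ∈ T, (P.filter fun a => f a = t).card ^ 2 =
      ((P ×ˢ P).filter fun x => f x.1 = f x.2).card := by
    rw [card_eq_sum_card_fiberwise (f := fun x : ℕ × ℕ => f x.1) (t := T)]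
    · refine sum_congr rfl fun t _ => ?_
      rw [sq, ← card_product]
      congr 1
      ext ⟨a, b⟩
      simp only [mem_product, mem_filter]
      constructor
      · rintro ⟨⟨h4, h5⟩, h6, h7⟩
        exact ⟨⟨⟨h4, h6⟩, by rw [h5, h7]⟩, h5⟩
      · rintro ⟨⟨⟨h4, h6⟩, h7⟩, h5⟩
        exact ⟨⟨h4, h5⟩, h6, by rw [← h7, h5]⟩
    · intro x hx
      have hx' := mem_coe.1 hx
      rw [mem_filter, mem_product] at hx'
      exact mem_coe.2 (hf _ hx'.1.1)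
  have h4 : ((P ×ˢ P).filter fun x => f x.1 = f x.2).card ≤ P.card + 2 * N := by
    have h5 : ((P ×ˢ P).filter fun x => f x.1 = f x.2) ⊆
        (P.image fun a => (a, a)) ∪ (((P ×ˢ P).filter fun x => x.1 < x.2 ∧ f x.1 = f x.2) ∪
          (((P ×ˢ P).filter fun x => x.1 < x.2 ∧ f x.1 = f x.2).image fun x => (x.2, x.1))) := by
      rintro ⟨a, b⟩ hab
      rw [mem_filter, mem_product] at hab
      obtain ⟨⟨ha, hb⟩, hfe⟩ := hab
      rw [mem_union, mem_union]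
      rcases lt_trichotomy a b with h6 | h6 | h6
      · right; left
        exact mem_filter.2 ⟨mem_product.2 ⟨ha, hb⟩, h6, hfe⟩
      · left
        subst h6
        exact mem_image_of_mem _ ha
      · right; right
        exact mem_image.2 ⟨(b, a), mem_filter.2 ⟨mem_product.2 ⟨hb, ha⟩, h6, hfe.symm⟩, rfl⟩
    refine (card_le_card h5).trans ((card_union_le _ _).trans ?_)
    have h6 := card_union_le ((P ×ˢ P).filter fun x => x.1 < x.2 ∧ f x.1 = f x.2)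
      (((P ×ˢ P).filter fun x => x.1 < x.2 ∧ f x.1 = f x.2).image fun x => (x.2, x.1))
    have h7 : (((P ×ˢ P).filter fun x => x.1 < x.2 ∧ f x.1 = f x.2).image fun x => (x.2, x.1)).card ≤
        N := card_image_le
    have h8 : (P.image fun a => (a, a)).card ≤ P.card := card_image_le
    omega
  rw [h3] at h2
  have h5 : P.card ^ 2 ≤ T.card * (P.card + 2 * N) := h2.trans (Nat.mul_le_mul_left _ h4)
  have h6 : 2 * (T.card * P.card) ≤ P.card ^ 2 := by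
    rw [sq, ← mul_assoc]
    exact Nat.mul_le_mul_right _ h
  nlinarith

/-- the type of a prime -/
def pat (n l : ℕ) : ℕ × Finset ℕ := (l % 8, (PR (n + 1)).filter fun p => jacobiSym (l : ℤ) p = 1)

lemma pat_mem (n l : ℕ) (hl : l.Prime) (hl2 : l ≠ 2) :
    pat n l ∈ ({1, 3, 5, 7} : Finset ℕ) ×ˢ (PR (n + 1)).powerset := by
  rw [mem_product, mem_powerset]
  refine ⟨?_, filter_subset _ _⟩
  have h := hl.odd_of_ne_two hl2
  obtain ⟨k, hk⟩ := h
  show l % 8 ∈ ({1, 3, 5, 7} : Finset ℕ)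
  simp only [mem_insert, mem_singleton]
  omega

lemma card_pats (n : ℕ) : (({1, 3, 5, 7} : Finset ℕ) ×ˢ (PR (n + 1)).powerset).card ≤
    4 * 2 ^ (Nat.primeCounting n) := by
  rw [card_product, card_powerset]
  have h1 : ({1, 3, 5, 7} : Finset ℕ).card = 4 := by decide
  rw [h1]
  refine Nat.mul_le_mul_left _ (Nat.pow_le_pow_right (by norm_num) ?_)
  rw [← Pool.Agent.W57.SW.card_pr]
  refine card_le_card fun p hp => ?_
  rw [Pool.Agent.W57.SW.mem_pr]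
  rw [PR, mem_filter, mem_range] at hp
  exact ⟨hp.2.1, by omega⟩

lemma sqM_of_pat (n l₁ l₂ : ℕ) (h1 : l₁.Prime) (h2 : l₂.Prime) (hn : 2 ≤ n) (hl1 : n < l₁) (hl2 : n < l₂)
    (h : pat n l₁ = pat n l₂) : (8 : ℤ) ∣ ((l₁ * l₂ : ℕ) : ℤ) - 1 ∧
      SqM ((l₁ * l₂ : ℕ) : ℤ) (4 * n.factorial) := by
  have hmod : l₁ % 8 = l₂ % 8 := congrArg Prod.fst h
  have hfil : ((PR (n + 1)).filter fun p => jacobiSym (l₁ : ℤ) p = 1) =
      ((PR (n + 1)).filter fun p => jacobiSym (l₂ : ℤ) p = 1) := congrArg Prod.snd h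
  have h8 : (8 : ℤ) ∣ ((l₁ * l₂ : ℕ) : ℤ) - 1 := by
    obtain ⟨a, ha⟩ := h1.odd_of_ne_two (by omega)
    obtain ⟨b, hb⟩ := h2.odd_of_ne_two (by omega)
    have h3 : (l₁ * l₂) % 8 = 1 := by
      rw [Nat.mul_mod, ← hmod]
      have h4 : l₁ % 8 = 1 ∨ l₁ % 8 = 3 ∨ l₁ % 8 = 5 ∨ l₁ % 8 = 7 := by omega
      rcases h4 with h4 | h4 | h4 | h4 <;> rw [h4]
    omega
  refine ⟨h8, ?_⟩
  apply SqM_all
  · have := Nat.factorial_pos n
    omega
  intro p hp hd k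
  rcases eq_or_ne p 2 with rfl | hp2
  · exact SqM_dvd (Nat.pow_dvd_pow 2 (by omega : k ≤ k + 3)) (SqM_two _ h8 k)
  have hpn : p ≤ n := by
    rcases (Nat.Prime.dvd_mul hp).1 hd with h3 | h3
    · exfalso
      have h4 : p ∣ 2 := hp.dvd_of_dvd_pow (show p ∣ 2 ^ 2 from h3)
      exact hp2 ((Nat.prime_dvd_prime_iff_eq hp Nat.prime_two).1 h4)
    · exact (Nat.Prime.dvd_factorial hp).1 h3
  have hne : ∀ l : ℕ, l.Prime → n < l → ¬ (p : ℤ) ∣ (l : ℤ) := by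
    intro l hl hnl hdl
    have h3 : p ∣ l := by exact_mod_cast hdl
    have := (Nat.prime_dvd_prime_iff_eq hp hl).1 h3
    omega
  have hj : ∀ l : ℕ, l.Prime → n < l → jacobiSym (l : ℤ) p = 1 ∨ jacobiSym (l : ℤ) p = -1 := by
    intro l hl hnl
    have : NeZero p := ⟨hp.ne_zero⟩
    rcases jacobiSym.trichotomy (l : ℤ) p with h3 | h3 | h3
    · exfalso
      have := jacobiSym.eq_zero_iff_not_coprime.1 h3
      apply this
      rw [Int.gcd_natCast_natCast]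
      exact ((Nat.coprime_primes hl hp).2 (by omega))
    · exact Or.inl h3
    · exact Or.inr h3
  have hPR : p ∈ PR (n + 1) := by
    rw [PR, mem_filter, mem_range]
    exact ⟨by omega, hp, hp2⟩
  have heq : jacobiSym (l₁ : ℤ) p = jacobiSym (l₂ : ℤ) p := by
    have h3 : (jacobiSym (l₁ : ℤ) p = 1) ↔ (jacobiSym (l₂ : ℤ) p = 1) := by
      constructor
      · intro h4
        have h5 : p ∈ (PR (n + 1)).filter fun p => jacobiSym (l₁ : ℤ) p = 1 := mem_filter.2 ⟨hPR, h4⟩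
        rw [hfil] at h5
        exact (mem_filter.1 h5).2
      · intro h4
        have h5 : p ∈ (PR (n + 1)).filter fun p => jacobiSym (l₂ : ℤ) p = 1 := mem_filter.2 ⟨hPR, h4⟩
        rw [← hfil] at h5
        exact (mem_filter.1 h5).2
    rcases hj l₁ h1 hl1 with h4 | h4 <;> rcases hj l₂ h2 hl2 with h5 | h5
    · rw [h4, h5]
    · have := h3.1 h4
      rw [h5] at this
      norm_num at this
    · have := h3.2 h5
      rw [h4] at this
      norm_num at this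
    · rw [h4, h5]
  have hD : jacobiSym ((l₁ * l₂ : ℕ) : ℤ) p = 1 := by
    push_cast
    rw [jacobiSym.mul_left, heq]
    rcases hj l₂ h2 hl2 with h5 | h5 <;> rw [h5] <;> norm_num
  have hnd : ¬ (p : ℤ) ∣ ((l₁ * l₂ : ℕ) : ℤ) := by
    push_cast
    intro h3
    rcases (Nat.prime_iff_prime_int.1 hp).dvd_or_dvd h3 with h3 | h3
    · exact hne l₁ h1 hl1 h3
    · exact hne l₂ h2 hl2 h3
  have hsq : SqM ((l₁ * l₂ : ℕ) : ℤ) p := by
    have : Fact p.Prime := ⟨hp⟩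
    rw [← jacobiSym.legendreSym.to_jacobiSym] at hD
    have h3 := (legendreSym.eq_one_iff p (a := ((l₁ * l₂ : ℕ) : ℤ)) (by
      rw [Ne, ZMod.intCast_zmod_eq_zero_iff_dvd]
      exact hnd)).1 hD
    obtain ⟨r, hr⟩ := h3
    refine ⟨(r.val : ℤ), ?_⟩
    rw [← ZMod.intCast_zmod_eq_zero_iff_dvd]
    push_cast
    rw [ZMod.natCast_zmod_val, sq, ← hr]
    push_cast
    ring
  cases k with
  | zero => exact ⟨0, by simp⟩
  | succ k => exact SqM_odd _ p hp hp2 hnd hsq k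

lemma not_sq (l₁ l₂ : ℕ) (h1 : l₁.Prime) (h2 : l₂.Prime) (h : l₁ < l₂) :
    ¬ IsSquare ((l₁ * l₂ : ℕ) : ℤ) := by
  rintro ⟨r, hr⟩
  have h3 : l₁ * l₂ = r.natAbs * r.natAbs := by
    have := congrArg Int.natAbs hr
    rwa [Int.natAbs_natCast, Int.natAbs_mul] at this
  have h4 : l₁ ∣ r.natAbs := by
    have h5 : l₁ ∣ r.natAbs * r.natAbs := h3 ▸ dvd_mul_right _ _
    rcases (Nat.Prime.dvd_mul h1).1 h5 with h6 | h6 <;> exact h6
  have h5 : l₁ * l₁ ∣ l₁ * l₂ := by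
    rw [h3]; exact Nat.mul_dvd_mul h4 h4
  have h6 : l₁ ∣ l₂ := Nat.dvd_of_mul_dvd_mul_left h1.pos h5
  have := (Nat.prime_dvd_prime_iff_eq h1 h2).1 h6
  omega

lemma comb (n h J : ℕ) (hn : 2 ≤ n) (hJ : 2 * J ≤ h + 1)
    (hP : 2 * (4 * 2 ^ (Nat.primeCounting n)) ≤ ((Icc 1 h).filter fun l => l.Prime ∧ n < l).card) :
    ∃ S : Finset (ℤ × ℤ), (∀ c ∈ S, 0 ≤ c.1 ∧ c.1 ≤ h ∧ |c.2| ≤ (h : ℤ) ^ 2 ∧
      RiemannRoch n (poly2 c.1 c.2) ∧ ¬ ∃ a b : ℤ, c.1 = a + b ∧ c.2 = a * b) ∧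
      J * ((Icc 1 h).filter fun l => l.Prime ∧ n < l).card ^ 2 ≤
        16 * 2 ^ (Nat.primeCounting n) * S.card := by
  classical
  set P := (Icc 1 h).filter fun l => l.Prime ∧ n < l with hPdef
  have hmem : ∀ l ∈ P, l ≤ h ∧ l.Prime ∧ n < l := by
    intro l hl
    rw [hPdef, mem_filter, mem_Icc] at hl
    exact ⟨hl.1.2, hl.2⟩
  have hp := pigeon P (({1, 3, 5, 7} : Finset ℕ) ×ˢ (PR (n + 1)).powerset) (pat n)
    (fun l hl => pat_mem n l (hmem l hl).2.1 (by have := (hmem l hl).2.2; omega))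
    (le_trans (Nat.mul_le_mul_left _ (card_pats n)) hP)
  set N := (P ×ˢ P).filter fun x => x.1 < x.2 ∧ pat n x.1 = pat n x.2 with hN
  have hNm : ∀ x ∈ N, (x.1 ∈ P ∧ x.2 ∈ P) ∧ x.1 < x.2 ∧ pat n x.1 = pat n x.2 := by
    intro x hx
    rw [hN, mem_filter, mem_product] at hx
    exact hx
  let g : ℕ × (ℕ × ℕ) → ℤ × ℤ := fun y =>
    ((2 * (y.1 : ℤ) + 1), ((2 * (y.1 : ℤ) + 1) ^ 2 - ((y.2.1 * y.2.2 : ℕ) : ℤ)) / 4)
  have key : ∀ y ∈ range J ×ˢ N, 4 * (g y).2 = (g y).1 ^ 2 - ((y.2.1 * y.2.2 : ℕ) : ℤ) := by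
    intro y hy
    rw [mem_product] at hy
    obtain ⟨⟨ha, hb⟩, hlt, hpat⟩ := hNm _ hy.2
    obtain ⟨h8, -⟩ := sqM_of_pat n y.2.1 y.2.2 (hmem _ ha).2.1 (hmem _ hb).2.1 hn (hmem _ ha).2.2
      (hmem _ hb).2.2 hpat
    apply Int.mul_ediv_cancel'
    obtain ⟨w, hw⟩ := h8
    refine ⟨(y.1 : ℤ) ^ 2 + y.1 - 2 * w, ?_⟩
    show (2 * (y.1 : ℤ) + 1) ^ 2 - ((y.2.1 * y.2.2 : ℕ) : ℤ) = _
    linarith [hw]
  refine ⟨(range J ×ˢ N).image g, ?_, ?_⟩
  · intro c hc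
    obtain ⟨y, hy, rfl⟩ := mem_image.1 hc
    have hk := key y hy
    rw [mem_product, mem_range] at hy
    obtain ⟨⟨ha, hb⟩, hlt, hpat⟩ := hNm _ hy.2
    obtain ⟨h8, hsq⟩ := sqM_of_pat n y.2.1 y.2.2 (hmem _ ha).2.1 (hmem _ hb).2.1 hn (hmem _ ha).2.2
      (hmem _ hb).2.2 hpat
    have hg1 : (g y).1 = 2 * (y.1 : ℤ) + 1 := rfl
    have hdisc : (g y).1 ^ 2 - 4 * (g y).2 = ((y.2.1 * y.2.2 : ℕ) : ℤ) := by linarith
    have hD1 : (0 : ℤ) ≤ ((y.2.1 * y.2.2 : ℕ) : ℤ) := Int.natCast_nonneg _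
    have hD2 : ((y.2.1 * y.2.2 : ℕ) : ℤ) ≤ (h : ℤ) ^ 2 := by
      have : y.2.1 * y.2.2 ≤ h * h := Nat.mul_le_mul (hmem _ ha).1 (hmem _ hb).1
      rw [sq]
      exact_mod_cast this
    have hc1 : (g y).1 ≤ h := by rw [hg1]; omega
    have hc0 : 0 ≤ (g y).1 := by rw [hg1]; omega
    have hc2 : (g y).1 ^ 2 ≤ (h : ℤ) ^ 2 := pow_le_pow_left₀ hc0 hc1 2
    refine ⟨hc0, hc1, ?_, ?_, ?_⟩
    · rw [abs_le]
      have h3 : 0 ≤ (g y).1 ^ 2 := sq_nonneg _
      constructor <;> nlinarith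
    · apply rr_of_sq
      rw [hdisc]
      exact hsq
    · apply Pool.Agent.T3h91.EC.not_split
      rw [hdisc]
      exact not_sq _ _ (hmem _ ha).2.1 (hmem _ hb).2.1 hlt
  · rw [card_image_of_injOn, card_product, card_range]
    · calc J * P.card ^ 2 ≤ J * (4 * (4 * 2 ^ (Nat.primeCounting n)) * N.card) :=
            Nat.mul_le_mul_left _ (hp.trans (Nat.mul_le_mul_right _ (Nat.mul_le_mul_left _ (card_pats n))))
        _ = 16 * 2 ^ (Nat.primeCounting n) * (J * N.card) := by ring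
    · intro y hy z hz hyz
      have hk := key y (mem_coe.1 hy)
      have hk' := key z (mem_coe.1 hz)
      rw [mem_coe, mem_product] at hy hz
      obtain ⟨⟨ha, hb⟩, hlt, -⟩ := hNm _ hy.2
      obtain ⟨⟨ha', hb'⟩, hlt', -⟩ := hNm _ hz.2
      have h1 : (g y).1 = (g z).1 := by rw [hyz]
      have h2 : (g y).2 = (g z).2 := by rw [hyz]
      have h3 : y.1 = z.1 := by
        have : (2 * (y.1 : ℤ) + 1) = 2 * (z.1 : ℤ) + 1 := h1
        omega
      have h4 : y.2.1 * y.2.2 = z.2.1 * z.2.2 := by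
        have : ((y.2.1 * y.2.2 : ℕ) : ℤ) = ((z.2.1 * z.2.2 : ℕ) : ℤ) := by
          rw [h1, h2] at hk
          linarith
        exact_mod_cast this
      have h5 : y.2.1 ∣ z.2.1 * z.2.2 := h4 ▸ dvd_mul_right _ _
      have p1 := (hmem _ ha).2.1
      have p2 := (hmem _ hb).2.1
      have q1 := (hmem _ ha').2.1
      have q2 := (hmem _ hb').2.1
      rcases (Nat.Prime.dvd_mul p1).1 h5 with h6 | h6
      · have h7 := (Nat.prime_dvd_prime_iff_eq p1 q1).1 h6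
        rw [h7] at h4
        have h8 := Nat.eq_of_mul_eq_mul_left q1.pos h4
        exact Prod.ext h3 (Prod.ext h7 h8)
      · have h7 := (Nat.prime_dvd_prime_iff_eq p1 q2).1 h6
        rw [h7, mul_comm] at h4
        have h8 := Nat.eq_of_mul_eq_mul_right q2.pos h4
        omega

end Pool.Agent.T4h91.EH
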