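import Pool.Agent.T4h91.EH.Large
import Pool.Agent.R852.LK.Pairs

set_option autoImplicit false

/-! Few exceptional discriminants and pairs in a range which is exponential in a power of `n`. -/

open Finset Filter Topology

namespace Pool.Agent.T4h91.EH

open Pool.Agent.R852.LK Pool.Agent.R852.BC Pool.Agent.R920.CH Pool.Agent.T3h91.EC

lemma medium2 (A ε : ℝ) (hA : 0 ≤ A) (hε : 0 < ε) : ∀ᶠ n : ℕ in atTop, ∀ X : ℝ,
    Real.log X ≤ (n : ℝ) ^ (1 / 2 : ℝ) → ∀ κ σ : ℤ → ℤ, ∀ T : Finset ℤ,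
    (∀ D ∈ T, Good n X κ σ D ∧ (n : ℝ) ^ (4 * Real.exp (1 / 2) - ε) ≤ |(κ D : ℝ)| ∧
      |(κ D : ℝ)| ≤ (n : ℝ) ^ A) →
    (T.card : ℝ) ≤ √X / (n : ℝ) ^ (2 * Real.exp (1 / 2) - ε) := by
  classical
  set B : ℕ := ⌈2 * (A + 1)⌉₊ with hB
  have hBA : 2 * (A + 1) ≤ (B : ℝ) := Nat.le_ceil _
  have hB0 : (0 : ℝ) < B := by linarith
  set δ : ℝ := min (ε / (16 * B)) (1 / 8) with hδ
  have hδ0 : 0 < δ := lt_min (by positivity) (by norm_num)
  have hδ8 : δ ≤ 1 / 8 := min_le_right _ _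
  have hδB : (δ + δ) * B ≤ ε / 8 := by
    have : δ ≤ ε / (16 * B) := min_le_left _ _
    rw [le_div_iff₀ (by positivity)] at this
    linarith
  have e1 : ∀ᶠ n : ℕ in atTop, (4 * B : ℝ) ≤ (n : ℝ) ^ δ :=
    tendsto_natCast_atTop_atTop.eventually ((tendsto_rpow_atTop hδ0).eventually_ge_atTop _)
  have e2 : ∀ᶠ n : ℕ in atTop, (8 : ℝ) ≤ (n : ℝ) ^ (1 / 4 : ℝ) :=
    tendsto_natCast_atTop_atTop.eventually
      ((tendsto_rpow_atTop (by norm_num : (0 : ℝ) < 1 / 4)).eventually_ge_atTop _)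
  have e3 : ∀ᶠ n : ℕ in atTop, (4 : ℝ) ≤ (n : ℝ) ^ (3 * ε / 8) :=
    tendsto_natCast_atTop_atTop.eventually
      ((tendsto_rpow_atTop (by positivity : (0 : ℝ) < 3 * ε / 8)).eventually_ge_atTop _)
  have e4 : ∀ᶠ n : ℕ in atTop, Real.log (n : ℝ) ≤ (1 / (64 * (A + 1))) * (n : ℝ) ^ (1 : ℝ) := by
    have h := (isLittleO_log_rpow_atTop (by norm_num : (0 : ℝ) < 1)).bound
      (by positivity : (0 : ℝ) < 1 / (64 * (A + 1)))
    filter_upwards [tendsto_natCast_atTop_atTop.eventually h, eventually_ge_atTop 1] with y hy hy1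
    rw [Real.norm_of_nonneg (Real.log_nonneg (by exact_mod_cast hy1)),
      Real.norm_of_nonneg (by positivity)] at hy
    exact hy
  filter_upwards [card_PR δ hδ0 (by linarith), e1, e2, e3, e4, eventually_ge_atTop 128]
    with n hK h1 h2 h3 h4 hn X hX κ σ T hT
  have hn0 : (0 : ℝ) < n := by positivity
  have hn128 : (128 : ℝ) ≤ n := by exact_mod_cast hn
  have hn1 : (1 : ℝ) ≤ n := by linarith
  rw [Real.rpow_one] at h4
  have hY : 1 ≤ (n : ℝ) ^ A := Real.one_le_rpow hn1 hA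
  have hlogY : Real.log (4 * ((n : ℝ) ^ A) ^ 2) = Real.log 4 + 2 * (A * Real.log n) := by
    rw [Real.log_mul (by norm_num) (by positivity), Real.log_pow, Real.log_rpow hn0]
    push_cast; ring
  have hlog4 : Real.log 4 ≤ 2 := by
    have : Real.log 4 = 2 * Real.log 2 := by
      rw [show (4 : ℝ) = 2 ^ 2 by norm_num, Real.log_pow]; push_cast; ring
    rw [this]
    linarith [Real.log_two_lt_d9]
  have hAl : A * Real.log n ≤ n / 64 := by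
    have h5 : A * Real.log n ≤ A * (1 / (64 * (A + 1)) * n) := mul_le_mul_of_nonneg_left h4 hA
    have h6 : A * (1 / (64 * (A + 1)) * n) = (A / (A + 1)) * (n / 64) := by
      field_simp
    have h7 : A / (A + 1) ≤ 1 := by rw [div_le_one (by positivity)]; linarith
    have h8 : (A / (A + 1)) * (n / 64) ≤ 1 * ((n : ℝ) / 64) :=
      mul_le_mul_of_nonneg_right h7 (by positivity)
    linarith
  have hYB : 16 * ((n : ℝ) ^ A) * (1 + Real.log (4 * ((n : ℝ) ^ A) ^ 2)) ≤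
      (n : ℝ) ^ ((1 - δ - δ) * B) := by
    have h5 : (n : ℝ) ^ (A + 1) ≤ (n : ℝ) ^ ((1 - δ - δ) * B) := by
      apply Real.rpow_le_rpow_of_exponent_le hn1
      nlinarith
    refine le_trans ?_ h5
    rw [Real.rpow_add hn0, Real.rpow_one, hlogY]
    have h6 : 16 * (1 + (Real.log 4 + 2 * (A * Real.log n))) ≤ n := by linarith
    have h7 : 0 ≤ (n : ℝ) ^ A := by positivity
    nlinarith
  have hXK : 8 * Real.log X ≤ ((PR n).card : ℝ) := by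
    have h5 : (n : ℝ) ^ (1 / 4 + 1 / 2 : ℝ) ≤ (n : ℝ) ^ (1 - δ) := by
      apply Real.rpow_le_rpow_of_exponent_le hn1
      linarith
    rw [Real.rpow_add hn0] at h5
    have h6 : 0 ≤ (n : ℝ) ^ (1 / 2 : ℝ) := by positivity
    nlinarith
  have hcl := few_classes B n δ δ X ((n : ℝ) ^ A) (by omega) hY hK hXK h1 hYB κ σ T
    (fun D hD => (hT D hD).1) (fun D hD => (hT D hD).2.2)
  have hcl2 : ((T.image κ).card : ℝ) ≤ (n : ℝ) ^ (ε / 2) := by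
    refine hcl.trans ?_
    calc 4 * (n : ℝ) ^ ((δ + δ) * B) ≤ (n : ℝ) ^ (3 * ε / 8) * (n : ℝ) ^ (ε / 8) := by
          apply mul_le_mul h3 _ (by positivity) (by positivity)
          exact Real.rpow_le_rpow_of_exponent_le hn1 hδB
      _ = (n : ℝ) ^ (ε / 2) := by rw [← Real.rpow_add hn0]; congr 1; ring
  have ht := tot X ((n : ℝ) ^ (4 * Real.exp (1 / 2) - ε)) _ (by positivity) T κ σ (by
    intro D hD
    obtain ⟨⟨g1, g2, g3, g4, g5, g6⟩, hsm, -⟩ := hT D hD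
    exact ⟨g1, g4, g5, g3.ne_zero, hsm⟩) hcl2
  refine ht.trans (le_of_eq ?_)
  have e : √((n : ℝ) ^ (4 * Real.exp (1 / 2) - ε)) =
      (n : ℝ) ^ (ε / 2) * (n : ℝ) ^ (2 * Real.exp (1 / 2) - ε) := by
    rw [Real.sqrt_eq_rpow, ← Real.rpow_mul hn0.le, ← Real.rpow_add hn0]; congr 1; ring
  rw [e]
  have : (n : ℝ) ^ (ε / 2) ≠ 0 := (Real.rpow_pos_of_pos hn0 _).ne'
  have h' : (n : ℝ) ^ (2 * Real.exp (1 / 2) - ε) ≠ 0 := (Real.rpow_pos_of_pos hn0 _).ne'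
  field_simp


lemma count0 (ε : ℝ) (hε : 0 < ε) (hε1 : ε ≤ 1 / 6) : ∀ᶠ n : ℕ in atTop, ∀ X : ℝ,
    X ≤ Real.exp ((n : ℝ) ^ (1 / 2 - ε : ℝ)) →
    ∀ S : Finset ℤ, (∀ D ∈ S, |(D : ℝ)| ≤ X ∧ ¬ IsSquare D ∧ IsDisc n D) →
      (S.card : ℝ) ≤ √X / (n : ℝ) ^ (2 * Real.exp (1 / 2) - ε) := by
  classical
  obtain ⟨A, hA, hlarge⟩ := large ε hε hε1
  have e1 : ∀ᶠ n : ℕ in atTop, (3 : ℝ) ≤ (n : ℝ) ^ (ε / 2) :=
    tendsto_natCast_atTop_atTop.eventually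
      ((tendsto_rpow_atTop (by positivity : (0 : ℝ) < ε / 2)).eventually_ge_atTop _)
  filter_upwards [small (ε / 2) (by positivity), medium2 A (ε / 2) hA (by positivity), hlarge, e1,
    eventually_ge_atTop 1] with n hs hm hl h3 hn1 X hX S hS
  have hn0 : (0 : ℝ) < n := by exact_mod_cast hn1
  have hnone : (1 : ℝ) ≤ n := by exact_mod_cast hn1
  rcases S.eq_empty_or_nonempty with rfl | ⟨D₀, hD₀⟩
  · rw [card_empty, Nat.cast_zero]; positivity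
  have hne : ∀ D ∈ S, D ≠ 0 := by
    rintro D hD rfl
    exact (hS 0 hD).2.1 ⟨0, by ring⟩
  have hX1 : 0 < X := by
    have h1 := (hS D₀ hD₀).1
    have h2 : (D₀ : ℝ) ≠ 0 := by exact_mod_cast hne D₀ hD₀
    have h4 : 0 < |(D₀ : ℝ)| := by positivity
    linarith
  have hlX : Real.log X ≤ (n : ℝ) ^ (1 / 2 - ε : ℝ) := by
    rw [Real.log_le_iff_le_exp hX1]; exact hX
  have hlX2 : Real.log X ≤ (n : ℝ) ^ (1 / 2 : ℝ) :=
    hlX.trans (Real.rpow_le_rpow_of_exponent_le hnone (by linarith))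
  choose! κ σ h1 h2 h3' using sqf
  have hgood : ∀ D ∈ S, Good n X κ σ D := by
    intro D hD
    obtain ⟨g1, g2, c₁, c₂, hRR, hc⟩ := hS D hD
    refine ⟨g1, g2, h1 D (hne D hD), h2 D (hne D hD), h3' D (hne D hD), ?_⟩
    intro p hp
    obtain ⟨hp1, hp2, hp3⟩ := mem_PR.mp hp
    rw [← hc]
    exact square_mod hRR p hp2 hp3 (by omega)
  set z : ℝ := (n : ℝ) ^ (4 * Real.exp (1 / 2) - ε / 2) with hz
  set S₁ := S.filter fun D => |(κ D : ℝ)| ≤ z with hS₁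
  set S₂ := S.filter fun D => z ≤ |(κ D : ℝ)| ∧ |(κ D : ℝ)| ≤ (n : ℝ) ^ A with hS₂
  set S₃ := S.filter fun D => (n : ℝ) ^ A < |(κ D : ℝ)| with hS₃
  have hsub : S ⊆ S₁ ∪ (S₂ ∪ S₃) := by
    intro D hD
    rw [mem_union, mem_union, hS₁, hS₂, hS₃, mem_filter, mem_filter, mem_filter]
    by_cases ha : |(κ D : ℝ)| ≤ z
    · exact Or.inl ⟨hD, ha⟩
    · push Not at ha
      by_cases hb : |(κ D : ℝ)| ≤ (n : ℝ) ^ A
      · exact Or.inr (Or.inl ⟨hD, ha.le, hb⟩)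
      · push Not at hb
        exact Or.inr (Or.inr ⟨hD, hb⟩)
  have hcard : (S.card : ℝ) ≤ S₁.card + (S₂.card + S₃.card) := by
    have h4 := (card_le_card hsub).trans
      ((card_union_le _ _).trans (Nat.add_le_add_left (card_union_le _ _) _))
    exact_mod_cast h4
  have b1 : (S₁.card : ℝ) ≤ √X / (n : ℝ) ^ 4 := hs X κ σ S₁ (by
    intro D hD
    rw [hS₁, mem_filter] at hD
    exact ⟨hgood D hD.1, hD.2⟩)
  have b2 : (S₂.card : ℝ) ≤ √X / (n : ℝ) ^ (2 * Real.exp (1 / 2) - ε / 2) :=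
    hm X hlX2 κ σ S₂ (by
      intro D hD
      rw [hS₂, mem_filter] at hD
      exact ⟨hgood D hD.1, hD.2⟩)
  have b3 : (S₃.card : ℝ) ≤ √X / (n : ℝ) ^ 4 := hl X hlX κ σ S₃ (by
    intro D hD
    rw [hS₃, mem_filter] at hD
    exact ⟨hgood D hD.1, hD.2⟩)
  set w : ℝ := (n : ℝ) ^ (2 * Real.exp (1 / 2) - ε / 2) with hw
  have hw0 : 0 < w := Real.rpow_pos_of_pos hn0 _
  have hw4 : w ≤ (n : ℝ) ^ 4 := by
    rw [hw, ← Real.rpow_natCast]
    apply Real.rpow_le_rpow_of_exponent_le hnone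
    have := exp_half_bounds.2
    push_cast
    linarith
  have b4 : √X / (n : ℝ) ^ 4 ≤ √X / w :=
    div_le_div_of_nonneg_left (Real.sqrt_nonneg _) hw0 hw4
  have hwe : w = (n : ℝ) ^ (2 * Real.exp (1 / 2) - ε) * (n : ℝ) ^ (ε / 2) := by
    rw [hw, ← Real.rpow_add hn0]; congr 1; ring
  calc (S.card : ℝ) ≤ 3 * (√X / w) := by linarith
    _ ≤ (n : ℝ) ^ (ε / 2) * (√X / w) := mul_le_mul_of_nonneg_right h3 (by positivity)
    _ = √X / (n : ℝ) ^ (2 * Real.exp (1 / 2) - ε) := by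
        rw [hwe]
        have : (n : ℝ) ^ (ε / 2) ≠ 0 := (Real.rpow_pos_of_pos hn0 _).ne'
        field_simp

/-- **Few exceptional discriminants** in an exponential range. -/
theorem count (ε : ℝ) (hε : 0 < ε) : ∀ᶠ n : ℕ in atTop, ∀ X : ℝ,
    X ≤ Real.exp ((n : ℝ) ^ (1 / 2 - ε : ℝ)) →
    ∀ S : Finset ℤ, (∀ D ∈ S, |(D : ℝ)| ≤ X ∧ ¬ IsSquare D ∧ IsDisc n D) →
      (S.card : ℝ) ≤ √X / (n : ℝ) ^ (2 * Real.exp (1 / 2) - ε) := by
  filter_upwards [count0 (min ε (1 / 6)) (lt_min hε (by norm_num)) (min_le_right _ _),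
    eventually_ge_atTop 1] with n h hn1 X hX S hS
  have hn0 : (0 : ℝ) < n := by exact_mod_cast hn1
  have hnone : (1 : ℝ) ≤ n := by exact_mod_cast hn1
  have hm := min_le_left ε (1 / 6)
  refine (h X (hX.trans ?_) S hS).trans ?_
  · apply Real.exp_le_exp.mpr
    exact Real.rpow_le_rpow_of_exponent_le hnone (by linarith)
  · apply div_le_div_of_nonneg_left (Real.sqrt_nonneg _) (Real.rpow_pos_of_pos hn0 _)
    exact Real.rpow_le_rpow_of_exponent_le hnone (by linarith)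

/-- **Few exceptional pairs** in an exponential range. -/
theorem pairs (ε : ℝ) (hε : 0 < ε) : ∀ᶠ n : ℕ in atTop, ∀ H : ℝ, 1 ≤ H →
    H ≤ Real.exp ((n : ℝ) ^ (1 / 2 - ε : ℝ)) →
    ∀ S : Finset (ℤ × ℤ), (∀ c ∈ S, |(c.1 : ℝ)| ≤ H ∧ |(c.2 : ℝ)| ≤ H ^ 2 ∧
      RiemannRoch n (poly2 c.1 c.2) ∧ ¬ ∃ a b : ℤ, c.1 = a + b ∧ c.2 = a * b) →
      (S.card : ℝ) ≤ H ^ 2 / (n : ℝ) ^ (2 * Real.exp (1 / 2) - ε) := by
  classical
  have e1 : ∀ᶠ n : ℕ in atTop, (9 : ℝ) ≤ (n : ℝ) ^ (ε / 2) :=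
    tendsto_natCast_atTop_atTop.eventually
      ((tendsto_rpow_atTop (by positivity : (0 : ℝ) < ε / 2)).eventually_ge_atTop _)
  have e2 : ∀ᶠ n : ℕ in atTop, (4 : ℝ) ≤ (n : ℝ) ^ (1 / 6 : ℝ) :=
    tendsto_natCast_atTop_atTop.eventually
      ((tendsto_rpow_atTop (by norm_num : (0 : ℝ) < 1 / 6)).eventually_ge_atTop _)
  filter_upwards [count (min (ε / 2) (1 / 6)) (lt_min (by positivity) (by norm_num)), e1, e2,
    eventually_ge_atTop 5] with n hcount h9 h46 hn5 H hH1 hHA S hS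
  have hn0 : (0 : ℝ) < n := by positivity
  have hn5' : (5 : ℝ) ≤ n := by exact_mod_cast hn5
  have hn1 : (1 : ℝ) ≤ n := by linarith
  have hH0 : 0 < H := by linarith
  set ε' : ℝ := min (ε / 2) (1 / 6) with hε'
  have hle : ε' ≤ ε / 2 := min_le_left _ _
  have hle6 : ε' ≤ 1 / 6 := min_le_right _ _
  have hX : 5 * H ^ 2 ≤ Real.exp ((n : ℝ) ^ (1 / 2 - ε' : ℝ)) := by
    have h5 : (n : ℝ) ^ (1 / 2 - ε : ℝ) * (n : ℝ) ^ (ε / 2) ≤ (n : ℝ) ^ (1 / 2 - ε' : ℝ) := by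
      rw [← Real.rpow_add hn0]
      exact Real.rpow_le_rpow_of_exponent_le hn1 (by linarith)
    have h6 : (4 : ℝ) ≤ (n : ℝ) ^ (1 / 2 - ε' : ℝ) :=
      h46.trans (Real.rpow_le_rpow_of_exponent_le hn1 (by linarith))
    have h7 : 0 ≤ (n : ℝ) ^ (1 / 2 - ε : ℝ) := by positivity
    have h8 : 9 * (n : ℝ) ^ (1 / 2 - ε : ℝ) ≤ (n : ℝ) ^ (1 / 2 - ε' : ℝ) := by
      have := mul_le_mul_of_nonneg_left h9 h7
      linarith
    have h10 : (5 : ℝ) ≤ Real.exp 2 := by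
      have h11 := Real.exp_one_gt_d9
      have h12 : Real.exp 2 = Real.exp 1 * Real.exp 1 := by rw [← Real.exp_add]; norm_num
      rw [h12]; nlinarith
    have h13 : H ^ 2 ≤ Real.exp (2 * (n : ℝ) ^ (1 / 2 - ε : ℝ)) := by
      rw [two_mul, Real.exp_add, ← sq]
      exact pow_le_pow_left₀ hH0.le hHA 2
    calc 5 * H ^ 2 ≤ Real.exp 2 * Real.exp (2 * (n : ℝ) ^ (1 / 2 - ε : ℝ)) :=
          mul_le_mul h10 h13 (by positivity) (by positivity)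
      _ = Real.exp (2 + 2 * (n : ℝ) ^ (1 / 2 - ε : ℝ)) := by rw [← Real.exp_add]
      _ ≤ _ := Real.exp_le_exp.mpr (by linarith)
  set S' : Finset ℤ := S.image fun c => c.1 ^ 2 - 4 * c.2 with hS'
  have hc' := hcount (5 * H ^ 2) hX S' (by
    intro D hD
    obtain ⟨c, hc, rfl⟩ := Finset.mem_image.mp hD
    obtain ⟨h1, h2, h3, h4⟩ := hS c hc
    refine ⟨?_, fun hsq => h4 (split_of_square _ _ hsq), c.1, c.2, h3, rfl⟩
    push_cast
    have h5 : (c.1 : ℝ) ^ 2 ≤ H ^ 2 := by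
      rw [← sq_abs]; exact pow_le_pow_left₀ (abs_nonneg _) h1 2
    have h6 := abs_le.mp h2
    rw [abs_le]
    constructor
    · nlinarith [sq_nonneg (c.1 : ℝ)]
    · nlinarith [sq_nonneg (c.1 : ℝ)])
  -- the map `c ↦ (c₁, D)`
  have hcard : S.card ≤ (Finset.Icc (-(⌊H⌋₊ : ℤ)) ⌊H⌋₊ ×ˢ S').card := by
    apply Finset.card_le_card_of_injOn (fun c => (c.1, c.1 ^ 2 - 4 * c.2))
    · intro c hc
      rw [Finset.mem_coe, Finset.mem_product]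
      refine ⟨?_, Finset.mem_image.mpr ⟨c, hc, rfl⟩⟩
      rw [Finset.mem_Icc]
      have h1 := (hS c hc).1
      have h2 : c.1.natAbs ≤ ⌊H⌋₊ := by
        apply Nat.le_floor
        rw [Nat.cast_natAbs, Int.cast_abs]
        exact h1
      show -(⌊H⌋₊ : ℤ) ≤ c.1 ∧ c.1 ≤ (⌊H⌋₊ : ℤ)
      omega
    · intro c hc d hd hcd
      simp only [Prod.mk.injEq] at hcd
      obtain ⟨h1, h2⟩ := hcd
      rw [h1] at h2
      exact Prod.ext h1 (by linarith)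
  rw [Finset.card_product, Int.card_Icc] at hcard
  have h1 : (((⌊H⌋₊ : ℤ) + 1 - -(⌊H⌋₊ : ℤ)).toNat : ℝ) ≤ 3 * H := by
    have e : ((⌊H⌋₊ : ℤ) + 1 - -(⌊H⌋₊ : ℤ)).toNat = 2 * ⌊H⌋₊ + 1 := by omega
    rw [e]
    push_cast
    linarith [Nat.floor_le hH0.le]
  have h2 : (S.card : ℝ) ≤ (3 * H) * (S'.card : ℝ) := by
    calc (S.card : ℝ) ≤ ((((⌊H⌋₊ : ℤ) + 1 - -(⌊H⌋₊ : ℤ)).toNat * S'.card : ℕ) : ℝ) := by
          exact_mod_cast hcard
      _ = (((⌊H⌋₊ : ℤ) + 1 - -(⌊H⌋₊ : ℤ)).toNat : ℝ) * (S'.card : ℝ) := by push_cast; ring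
      _ ≤ _ := mul_le_mul_of_nonneg_right h1 (Nat.cast_nonneg _)
  have h3 : √(5 * H ^ 2) ≤ 3 * H := by
    rw [Real.sqrt_le_left (by positivity)]
    nlinarith
  have hp : 0 < (n : ℝ) ^ (2 * Real.exp (1 / 2) - ε') := Real.rpow_pos_of_pos hn0 _
  have hp' : 0 < (n : ℝ) ^ (2 * Real.exp (1 / 2) - ε) := Real.rpow_pos_of_pos hn0 _
  have e : (n : ℝ) ^ (2 * Real.exp (1 / 2) - ε) * (n : ℝ) ^ (ε / 2) ≤
      (n : ℝ) ^ (2 * Real.exp (1 / 2) - ε') := by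
    rw [← Real.rpow_add hn0]
    exact Real.rpow_le_rpow_of_exponent_le hn1 (by linarith)
  calc (S.card : ℝ) ≤ (3 * H) * (S'.card : ℝ) := h2
    _ ≤ (3 * H) * (√(5 * H ^ 2) / (n : ℝ) ^ (2 * Real.exp (1 / 2) - ε')) := by gcongr
    _ ≤ (3 * H) * (3 * H / (n : ℝ) ^ (2 * Real.exp (1 / 2) - ε')) := by gcongr
    _ = 9 * H ^ 2 / (n : ℝ) ^ (2 * Real.exp (1 / 2) - ε') := by ring
    _ ≤ (n : ℝ) ^ (ε / 2) * H ^ 2 / (n : ℝ) ^ (2 * Real.exp (1 / 2) - ε') := by gcongr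
    _ ≤ (n : ℝ) ^ (ε / 2) * H ^ 2 /
        ((n : ℝ) ^ (2 * Real.exp (1 / 2) - ε) * (n : ℝ) ^ (ε / 2)) :=
        div_le_div_of_nonneg_left (by positivity) (by positivity) e
    _ = H ^ 2 / (n : ℝ) ^ (2 * Real.exp (1 / 2) - ε) := by
        have : (n : ℝ) ^ (ε / 2) ≠ 0 := (Real.rpow_pos_of_pos hn0 _).ne'
        field_simp

end Pool.Agent.T4h91.EH
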