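import Pool.Agent.T3h91.EC.Cls
import Pool.Agent.W57.SW.Rank

set_option autoImplicit false

/-! Heath-Brown's large sieve and integers with few small primes of symbol different from one. -/

open Finset Filter Topology

namespace Pool.Agent.T4h91.EH

open Pool.Agent.H306R2.RZ Pool.Agent.W57.SW

/-- elementary symmetric functions of numbers most of which are one -/
lemma sum_prod_low (P bad : Finset ℕ) (χ : ℕ → ℝ) (B : ℕ) (h1 : ∀ p ∈ P, p ∉ bad → χ p = 1)
    (habs : ∀ p ∈ P, |χ p| ≤ 1) (hB : 4 * bad.card * B ≤ P.card) :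
    ((P.card.choose B : ℕ) : ℝ) / 2 ≤ ∑ T ∈ powersetCard B P, ∏ p ∈ T, χ p := by
  classical
  rcases Nat.eq_zero_or_pos B with rfl | hB0
  · rw [powersetCard_zero, sum_singleton, prod_empty, Nat.choose_zero_right]
    norm_num
  have hlow : ∀ T ∈ powersetCard B P,
      (1 : ℝ) - 2 * ∑ p ∈ bad, (if p ∈ T then (1 : ℝ) else 0) ≤ ∏ p ∈ T, χ p := by
    intro T hT
    rw [mem_powersetCard] at hT
    have hs0 : ∀ p ∈ bad, (0 : ℝ) ≤ (if p ∈ T then (1 : ℝ) else 0) := fun p _ => by
      split_ifs <;> norm_num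
    by_cases hex : ∃ p ∈ bad, p ∈ T
    · obtain ⟨p, hp, hpT⟩ := hex
      have h2 : (1 : ℝ) ≤ ∑ p ∈ bad, (if p ∈ T then (1 : ℝ) else 0) := by
        calc (1 : ℝ) = (if p ∈ T then (1 : ℝ) else 0) := by rw [if_pos hpT]
          _ ≤ _ := single_le_sum hs0 hp
      have h3 : |∏ p ∈ T, χ p| ≤ 1 := by
        rw [abs_prod]
        exact prod_le_one (fun _ _ => abs_nonneg _) fun q hq => habs q (hT.1 hq)
      have h4 := (abs_le.1 h3).1
      linarith
    · push Not at hex
      have h2 : ∏ p ∈ T, χ p = 1 := prod_eq_one fun p hp => h1 p (hT.1 hp) fun hb => hex p hb hp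
      rw [h2]
      have := sum_nonneg hs0
      linarith
  have hcnt : ∀ p ∈ bad, ((((powersetCard B P).filter fun T => p ∈ T).card : ℕ) : ℝ) ≤
      ((P.card - 1).choose (B - 1) : ℕ) := by
    intro p _
    by_cases hpP : p ∈ P
    · have h2 : ((powersetCard B P).filter fun T => p ∈ T).card ≤
          (powersetCard (B - 1) (P.erase p)).card := by
        apply card_le_card_of_injOn (fun T => T.erase p)
        · intro T hT
          rw [mem_coe, mem_filter, mem_powersetCard] at hT
          rw [mem_coe, mem_powersetCard]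
          refine ⟨erase_subset_erase p hT.1.1, ?_⟩
          rw [card_erase_of_mem hT.2, hT.1.2]
        · intro T hT T' hT' h
          rw [mem_coe, mem_filter] at hT hT'
          have h' : T.erase p = T'.erase p := h
          rw [← insert_erase hT.2, ← insert_erase hT'.2, h']
      rw [card_powersetCard, card_erase_of_mem hpP] at h2
      exact_mod_cast h2
    · have h2 : (powersetCard B P).filter (fun T => p ∈ T) = ∅ := by
        rw [filter_eq_empty_iff]
        intro T hT hp
        exact hpP ((mem_powersetCard.1 hT).1 hp)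
      rw [h2, card_empty, Nat.cast_zero]
      positivity
  have hsum := sum_le_sum hlow
  rw [sum_sub_distrib, sum_const, card_powersetCard, nsmul_eq_mul, mul_one, ← mul_sum, sum_comm] at hsum
  have hb2 : ∑ p ∈ bad, ∑ T ∈ powersetCard B P, (if p ∈ T then (1 : ℝ) else 0) ≤
      bad.card * ((P.card - 1).choose (B - 1) : ℕ) := by
    calc ∑ p ∈ bad, ∑ T ∈ powersetCard B P, (if p ∈ T then (1 : ℝ) else 0)
        = ∑ p ∈ bad, (((powersetCard B P).filter fun T => p ∈ T).card : ℝ) := by
          refine sum_congr rfl fun p _ => ?_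
          rw [← sum_filter, sum_const, nsmul_eq_mul, mul_one]
      _ ≤ ∑ _p ∈ bad, (((P.card - 1).choose (B - 1) : ℕ) : ℝ) := sum_le_sum hcnt
      _ = _ := by rw [sum_const, nsmul_eq_mul]
  have hkey : 4 * (bad.card * (P.card - 1).choose (B - 1)) ≤ P.card.choose B := by
    rcases Nat.eq_zero_or_pos P.card with h0 | h0
    · have : bad.card = 0 := by
        rw [h0] at hB
        rcases Nat.eq_zero_or_pos bad.card with h | h
        · exact h
        · have : 0 < 4 * bad.card * B := by positivity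
          omega
      rw [this]
      omega
    · have h2 := Nat.add_one_mul_choose_eq (P.card - 1) (B - 1)
      rw [Nat.sub_add_cancel h0, Nat.sub_add_cancel hB0] at h2
      -- P.card * choose (P.card-1) (B-1) = choose P.card B * B
      have h3 : 4 * (bad.card * (P.card - 1).choose (B - 1)) * B ≤ P.card.choose B * B := by
        calc 4 * (bad.card * (P.card - 1).choose (B - 1)) * B =
            (4 * bad.card * B) * (P.card - 1).choose (B - 1) := by ring
          _ ≤ P.card * (P.card - 1).choose (B - 1) := Nat.mul_le_mul_right _ hB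
          _ = P.card.choose B * B := h2
      exact Nat.le_of_mul_le_mul_right h3 hB0
  have hkey' : 4 * ((bad.card : ℝ) * ((P.card - 1).choose (B - 1) : ℕ)) ≤ ((P.card.choose B : ℕ) : ℝ) := by
    exact_mod_cast hkey
  linarith

/-- the large sieve for a set of positive squarefree numbers -/
lemma sieve_pos (Y N : ℕ) (Bd : ℝ) (hLS : LSB Y N Bd) (F : Finset ℕ) (hF : F ⊆ sqf Y)
    (S : Finset ℕ) (hS : S ⊆ osf N) (hS0 : 0 < S.card) (w : ℕ → ℝ) (hw : ∀ m, |w m| ≤ 1)
    (h : ∀ f ∈ F, (S.card : ℝ) / 2 ≤ ∑ m ∈ S, w m * js f m) :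
    (F.card : ℝ) ≤ 4 * Bd / S.card := by
  classical
  have hSr : (0 : ℝ) < S.card := by exact_mod_cast hS0
  have h1 := hLS (fun n => if n ∈ S then (w n : ℂ) else 0)
  have hsum : ∀ m : ℕ, ∑ n ∈ osf N, (if n ∈ S then (w n : ℂ) else 0) * (js m n : ℂ) =
      ((∑ n ∈ S, w n * js m n : ℝ) : ℂ) := by
    intro m
    push_cast
    rw [← sum_subset hS (f := fun n => (if n ∈ S then (w n : ℂ) else 0) * (js m n : ℂ))]
    · refine sum_congr rfl fun n hn => ?_
      rw [if_pos hn]
    · intro n _ hn
      rw [if_neg hn, zero_mul]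
  have hsum2 : ∑ n ∈ osf N, ‖(if n ∈ S then (w n : ℂ) else 0)‖ ^ 2 ≤ S.card := by
    rw [← sum_subset hS (f := fun n => ‖(if n ∈ S then (w n : ℂ) else 0)‖ ^ 2)]
    · calc ∑ n ∈ S, ‖(if n ∈ S then (w n : ℂ) else 0)‖ ^ 2 ≤ ∑ _n ∈ S, (1 : ℝ) := by
            refine sum_le_sum fun n hn => ?_
            rw [if_pos hn, Complex.norm_real, Real.norm_eq_abs]
            exact pow_le_one₀ (abs_nonneg _) (hw n)
        _ = S.card := by rw [sum_const, nsmul_eq_mul, mul_one]
    · intro n _ hn
      rw [if_neg hn, norm_zero]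
      norm_num
  have hlow : (F.card : ℝ) * ((S.card : ℝ) / 2) ^ 2 ≤
      ∑ m ∈ sqf Y, ‖∑ n ∈ osf N, (if n ∈ S then (w n : ℂ) else 0) * (js m n : ℂ)‖ ^ 2 := by
    calc (F.card : ℝ) * ((S.card : ℝ) / 2) ^ 2 = ∑ _m ∈ F, ((S.card : ℝ) / 2) ^ 2 := by
          rw [sum_const, nsmul_eq_mul]
      _ ≤ ∑ m ∈ F, ‖∑ n ∈ osf N, (if n ∈ S then (w n : ℂ) else 0) * (js m n : ℂ)‖ ^ 2 := by
          refine sum_le_sum fun m hm => ?_
          rw [hsum, Complex.norm_real, Real.norm_eq_abs]
          apply pow_le_pow_left₀ (by positivity)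
          exact (h m hm).trans (le_abs_self _)
      _ ≤ _ := sum_le_sum_of_subset_of_nonneg hF fun _ _ _ => by positivity
  have hBd : 0 ≤ Bd ∨ F.card = 0 := by
    by_cases hF0 : F.card = 0
    · exact Or.inr hF0
    · left
      by_contra hneg
      push Not at hneg
      have h2 : (0 : ℝ) < (F.card : ℝ) * ((S.card : ℝ) / 2) ^ 2 := by
        have : (0 : ℝ) < F.card := by
          have := Nat.pos_of_ne_zero hF0
          exact_mod_cast this
        positivity
      have h3 := hlow.trans h1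
      have h4 : Bd * ∑ n ∈ osf N, ‖(if n ∈ S then (w n : ℂ) else 0)‖ ^ 2 ≤ 0 :=
        mul_nonpos_of_nonpos_of_nonneg hneg.le (sum_nonneg fun _ _ => by positivity)
      linarith
  rcases hBd with hBd | h0
  · have h2 : (F.card : ℝ) * ((S.card : ℝ) / 2) ^ 2 ≤ Bd * S.card :=
      (hlow.trans h1).trans (mul_le_mul_of_nonneg_left hsum2 hBd)
    rw [le_div_iff₀ hSr]
    have h3 : (F.card : ℝ) * S.card * S.card ≤ 4 * Bd * S.card := by nlinarith
    exact le_of_mul_le_mul_right h3 hSr
  · rw [h0, Nat.cast_zero]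
    by_cases hb : 0 ≤ Bd
    · positivity
    · exfalso
      push Not at hb
      -- impossible: the bound of the large sieve is nonnegative
      have hn1 : ∃ n, n ∈ S := card_pos.1 hS0
      obtain ⟨n, hn⟩ := hn1
      have h5 := hLS (fun k => if k = n then 1 else 0)
      have h6 : ∑ k ∈ osf N, ‖(if k = n then (1 : ℂ) else 0)‖ ^ 2 = 1 := by
        rw [sum_eq_single n]
        · rw [if_pos rfl, norm_one, one_pow]
        · intro k _ hk
          rw [if_neg hk, norm_zero]
          norm_num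
        · intro hn'
          exact absurd (hS hn) hn'
      rw [h6, mul_one] at h5
      have h7 : 0 ≤ ∑ m ∈ sqf Y, ‖∑ k ∈ osf N, (if k = n then (1 : ℂ) else 0) * (js m k : ℂ)‖ ^ 2 :=
        sum_nonneg fun _ _ => by positivity
      linarith

/-- the large sieve for a set of squarefree integers -/
lemma sieve_int (Y N : ℕ) (Bd : ℝ) (hLS : LSB Y N Bd) (F : Finset ℤ)
    (hF : ∀ f ∈ F, Squarefree f ∧ f.natAbs ≤ Y)
    (S : Finset ℕ) (hS : S ⊆ osf N) (hS0 : 0 < S.card)
    (h : ∀ f ∈ F, (S.card : ℝ) / 2 ≤ ∑ m ∈ S, js f m) :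
    (F.card : ℝ) ≤ 8 * Bd / S.card := by
  classical
  have hne : ∀ f ∈ F, f ≠ 0 := fun f hf => (hF f hf).1.ne_zero
  have hsq : ∀ f ∈ F, f.natAbs ∈ sqf Y := by
    intro f hf
    rw [sqf, mem_filter, mem_Icc]
    refine ⟨⟨Int.natAbs_pos.2 (hne f hf), (hF f hf).2⟩, ?_⟩
    exact Int.squarefree_natAbs.2 (hF f hf).1
  have hpos := sieve_pos Y N Bd hLS ((F.filter fun f => 0 < f).image Int.natAbs) (by
      intro f hf
      rw [mem_image] at hf
      obtain ⟨g, hg, rfl⟩ := hf
      exact hsq g (mem_filter.1 hg).1) S hS hS0 (fun _ => 1) (fun _ => by rw [abs_one]) (by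
      intro f hf
      rw [mem_image] at hf
      obtain ⟨g, hg, rfl⟩ := hf
      rw [mem_filter] at hg
      refine (h g hg.1).trans (le_of_eq ?_)
      refine sum_congr rfl fun m _ => ?_
      rw [one_mul]
      have e : ((g.natAbs : ℕ) : ℤ) = g := Int.natAbs_of_nonneg hg.2.le
      rw [e])
  have hneg := sieve_pos Y N Bd hLS ((F.filter fun f => ¬ 0 < f).image Int.natAbs) (by
      intro f hf
      rw [mem_image] at hf
      obtain ⟨g, hg, rfl⟩ := hf
      exact hsq g (mem_filter.1 hg).1) S hS hS0 (fun m => js (-1) m) (fun m => by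
        unfold js
        have h3 : jacobiSym (-1) m = 0 ∨ jacobiSym (-1) m = 1 ∨ jacobiSym (-1) m = -1 :=
          jacobiSym.trichotomy _ _
        rcases h3 with h3 | h3 | h3 <;> rw [h3] <;> norm_num) (by
      intro f hf
      rw [mem_image] at hf
      obtain ⟨g, hg, rfl⟩ := hf
      rw [mem_filter] at hg
      refine (h g hg.1).trans (le_of_eq ?_)
      refine sum_congr rfl fun m _ => ?_
      have e : (-1 : ℤ) * ((g.natAbs : ℕ) : ℤ) = g := by
        have := hne g hg.1
        omega
      unfold js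
      rw [← Int.cast_mul, ← jacobiSym.mul_left, e])
  have hinj1 : Set.InjOn Int.natAbs ((F.filter fun f => 0 < f : Finset ℤ) : Set ℤ) := by
    intro a ha b hb hab
    rw [mem_coe, mem_filter] at ha hb
    omega
  have hinj2 : Set.InjOn Int.natAbs ((F.filter fun f => ¬ 0 < f : Finset ℤ) : Set ℤ) := by
    intro a ha b hb hab
    rw [mem_coe, mem_filter] at ha hb
    omega
  rw [card_image_of_injOn hinj1] at hpos
  rw [card_image_of_injOn hinj2] at hneg
  have hsplit : ((F.filter fun f => 0 < f).card : ℝ) + ((F.filter fun f => ¬ 0 < f).card : ℝ) = F.card := by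
    exact_mod_cast card_filter_add_card_filter_not (s := F) (fun f => 0 < f)
  have e : 8 * Bd / S.card = 4 * Bd / S.card + 4 * Bd / S.card := by ring
  rw [e]
  linarith

end Pool.Agent.T4h91.EH
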