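import Pool.Agent.T3h91.EC.Parts
import Pool.Agent.T4h91.EH.Sieve

set_option autoImplicit false

/-! Large squarefree parts, with Heath-Brown's large sieve. -/

open Finset Filter Topology

namespace Pool.Agent.T4h91.EH

open Pool.Agent.R852.LK Pool.Agent.R852.BC Pool.Agent.R920.CH Pool.Agent.T3h91.EC
open Pool.Agent.H306R2.RZ (js osf sqf LSB)
open Pool.Agent.W57.SW (prods card_prods prods_spec jacobi_prod)

lemma js_abs (f : ℤ) (p : ℕ) : |js f p| ≤ 1 := by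
  unfold js
  rcases jacobiSym.trichotomy f p with h | h | h <;> rw [h] <;> norm_num

lemma prods_osf (n B : ℕ) : prods (PR n) B ⊆ osf (n ^ B) := by
  intro s hs
  have hP : ∀ p ∈ PR n, p.Prime := fun p hp => (mem_PR.mp hp).2.1
  obtain ⟨h1, h2, h3, h4, -⟩ := prods_spec hP (y := n) (fun p hp => (mem_PR.mp hp).1.le) hs
  rw [osf, mem_filter, mem_Icc]
  refine ⟨⟨h1, h2⟩, ?_, h4⟩
  rw [← Nat.not_even_iff_odd, even_iff_two_dvd]
  intro h
  have h5 : 2 ∈ s.primeFactors := Nat.mem_primeFactors.2 ⟨Nat.prime_two, h, by omega⟩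
  exact (mem_PR.mp (h3 h5)).2.2 rfl

lemma low_sum (n B : ℕ) (f : ℤ) (hB : 4 * (bad n f).card * B ≤ (PR n).card) :
    ((prods (PR n) B).card : ℝ) / 2 ≤ ∑ m ∈ prods (PR n) B, js f m := by
  classical
  have hP : ∀ p ∈ PR n, p.Prime := fun p hp => (mem_PR.mp hp).2.1
  have h1 := sum_prod_low (PR n) (bad n f) (fun p => js f p) B (by
      intro p hp hb
      obtain ⟨-, hp2, hp3⟩ := mem_PR.mp hp
      have h2 : ps f p = 1 := by
        by_contra h
        exact hb (mem_filter.2 ⟨hp, h⟩)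
      unfold ps at h2
      rw [if_pos (hp2.odd_of_ne_two hp3)] at h2
      show js f p = 1
      unfold js
      rw [h2]
      norm_num) (fun p _ => js_abs f p) hB
  rw [card_prods hP]
  refine h1.trans (le_of_eq ?_)
  rw [prods, sum_image]
  · refine sum_congr rfl fun T hT => ?_
    rw [mem_powersetCard] at hT
    unfold js
    rw [jacobi_prod f T (fun x hx => (hP x (hT.1 hx)).ne_zero)]
    push_cast
    rfl
  · intro T hT T' hT' h
    rw [mem_coe, mem_powersetCard] at hT hT'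
    have h2 := Nat.primeFactors_prod (s := T) fun p hp => hP p (hT.1 hp)
    have h3 := Nat.primeFactors_prod (s := T') fun p hp => hP p (hT'.1 hp)
    simp only at h
    rw [← h2, ← h3, h]

lemma choose_low (K B : ℕ) (hB : 1 ≤ B) (hBK : B ≤ K) (v : ℝ) (hv : 0 ≤ v)
    (h : v * B ≤ (K : ℝ) + 1 - B) : v ^ B ≤ ((K.choose B : ℕ) : ℝ) := by
  have h1 := Nat.pow_le_choose B K (α := ℝ)
  have h2 : ((K + 1 - B : ℕ) : ℝ) = K + 1 - B := by
    rw [Nat.cast_sub (by omega)]; push_cast; ring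
  rw [h2] at h1
  refine le_trans ?_ h1
  have hf : (0 : ℝ) < (B.factorial : ℝ) := by positivity
  rw [le_div_iff₀ hf]
  have h3 : (B.factorial : ℝ) ≤ (B : ℝ) ^ B := by exact_mod_cast Nat.factorial_le_pow B
  calc v ^ B * (B.factorial : ℝ) ≤ v ^ B * (B : ℝ) ^ B := mul_le_mul_of_nonneg_left h3 (by positivity)
    _ = (v * B) ^ B := by rw [mul_pow]
    _ ≤ _ := pow_le_pow_left₀ (by positivity) h B

/-- one class of sizes -/
lemma one_class (ε : ℝ) (hε : 0 < ε) (hε1 : ε ≤ 1 / 6) : ∃ A : ℝ, 0 ≤ A ∧ ∀ᶠ n : ℕ in atTop,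
    ∀ X : ℝ, Real.log X ≤ (n : ℝ) ^ (1 / 2 - ε : ℝ) → ∀ κ σ : ℤ → ℤ,
    ∀ i : ℕ, (i : ℝ) ≤ (n : ℝ) ^ (1 / 2 - ε : ℝ) → ∀ T : Finset ℤ,
    (∀ D ∈ T, Good n X κ σ D ∧ (n : ℝ) ^ A < |(κ D : ℝ)| ∧
      Real.exp i ≤ |(κ D : ℝ)| ∧ |(κ D : ℝ)| < Real.exp (i + 1)) →
    (T.card : ℝ) ≤ √X / (n : ℝ) ^ 6 := by
  classical
  set η : ℝ := ε / 4 with hη
  have hη0 : 0 < η := by rw [hη]; linarith
  set θ : ℝ := 1 / 2 - ε with hθ
  obtain ⟨C, hC, hLS⟩ := Pool.Agent.H423R2.RZL.HBLSn.HBLS (ε / 8) (by positivity)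
  refine ⟨64 / ε, by positivity, ?_⟩
  have e1 : ∀ᶠ n : ℕ in atTop, (8 : ℝ) ≤ (n : ℝ) ^ (2 * ε - η) :=
    tendsto_natCast_atTop_atTop.eventually
      ((tendsto_rpow_atTop (by rw [hη]; linarith : (0 : ℝ) < 2 * ε - η)).eventually_ge_atTop _)
  have e2 : ∀ᶠ n : ℕ in atTop, (4 : ℝ) ≤ (n : ℝ) ^ (ε / 4) :=
    tendsto_natCast_atTop_atTop.eventually
      ((tendsto_rpow_atTop (by linarith : (0 : ℝ) < ε / 4)).eventually_ge_atTop _)
  filter_upwards [card_PR η hη0 (by rw [hη]; linarith), e1, e2, eventually_ge_atTop 305,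
    eventually_ge_atTop ⌈32 * C * Real.exp 1⌉₊]
    with n hK h1 h2 hn hnC X hX κ σ i hi T hT
  have hn0 : (0 : ℝ) < n := by positivity
  have hn305 : (305 : ℝ) ≤ n := by exact_mod_cast hn
  have hn1 : (1 : ℝ) ≤ n := by linarith
  have hnC' : 32 * C * Real.exp 1 ≤ n := by
    have := Nat.le_of_ceil_le hnC
    exact this
  rcases T.eq_empty_or_nonempty with rfl | ⟨D₀, hD₀⟩
  · rw [card_empty, Nat.cast_zero]; positivity
  have hnθ0 : 0 < (n : ℝ) ^ θ := by positivity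
  have hlogn1 : 1 ≤ Real.log n := by
    rw [Real.le_log_iff_exp_le hn0]
    have := Real.exp_one_lt_d9
    linarith
  set L : ℝ := Real.log n with hL
  have hL0 : 0 < L := by linarith
  have hi0 : (0 : ℝ) ≤ i := Nat.cast_nonneg _
  -- the lower bound for `i`
  have hiA : 64 / ε * L < i + 1 := by
    obtain ⟨-, g1, g2, g3⟩ := hT D₀ hD₀
    have h5 := g1.trans g3
    have h6 := Real.log_lt_log (Real.rpow_pos_of_pos hn0 _) h5
    rwa [Real.log_exp, Real.log_rpow hn0] at h6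
  have hεi : 16 * L - 1 ≤ ε / 4 * i := by
    have h5 := mul_lt_mul_of_pos_left hiA (by positivity : (0 : ℝ) < ε / 4)
    have h6 : ε / 4 * (64 / ε * L) = 16 * L := by field_simp; norm_num
    rw [h6] at h5
    linarith
  set B : ℕ := ⌊(i : ℝ) / L⌋₊ with hB
  have hBle : (B : ℝ) ≤ i / L := Nat.floor_le (by positivity)
  have hBlt : (i : ℝ) / L < B + 1 := Nat.lt_floor_add_one _
  have hBi : (B : ℝ) * L ≤ i := by rwa [le_div_iff₀ hL0] at hBle
  have hBi2 : (i : ℝ) < (B + 1) * L := by rwa [div_lt_iff₀ hL0] at hBlt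
  have hBθ : (B : ℝ) ≤ (n : ℝ) ^ θ := by
    have h5 : (B : ℝ) * 1 ≤ B * L := mul_le_mul_of_nonneg_left hlogn1 (Nat.cast_nonneg _)
    linarith
  have hB1 : 1 ≤ B := by
    rw [hB, Nat.one_le_floor_iff, le_div_iff₀ hL0]
    have h5 : (64 : ℝ) ≤ 64 / ε := by
      rw [le_div_iff₀ hε]
      linarith
    nlinarith
  have hK' : (n : ℝ) ^ (1 - η) ≤ (PR n).card := hK
  set Kc : ℕ := (PR n).card with hKc
  have hnK : 8 * ((n : ℝ) ^ θ * (n : ℝ) ^ θ) ≤ Kc := by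
    have h5 : (n : ℝ) ^ (1 - η) = (n : ℝ) ^ (2 * ε - η) * ((n : ℝ) ^ θ * (n : ℝ) ^ θ) := by
      rw [← Real.rpow_add hn0, ← Real.rpow_add hn0]; congr 1; rw [hθ]; ring
    rw [h5] at hK'
    refine le_trans ?_ hK'
    exact mul_le_mul_of_nonneg_right h1 (by positivity)
  have hnθ1 : 1 ≤ (n : ℝ) ^ θ := Real.one_le_rpow hn1 (by rw [hθ]; linarith)
  have hBK : B ≤ Kc := by
    have h5 : (B : ℝ) ≤ Kc := by nlinarith
    exact_mod_cast h5
  -- the products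
  have hvB : (n : ℝ) ^ (1 / 2 + ε / 2) * B ≤ (Kc : ℝ) + 1 - B := by
    have h5 : 4 * ((n : ℝ) ^ (1 / 2 + ε / 2) * (n : ℝ) ^ θ) ≤ (n : ℝ) ^ (1 - η) := by
      have h6 : (n : ℝ) ^ (1 - η) = (n : ℝ) ^ (ε / 4) *
          ((n : ℝ) ^ (1 / 2 + ε / 2) * (n : ℝ) ^ θ) := by
        rw [← Real.rpow_add hn0, ← Real.rpow_add hn0]; congr 1; rw [hθ, hη]; ring
      rw [h6]
      exact mul_le_mul_of_nonneg_right h2 (by positivity)
    have h6 : (n : ℝ) ^ (1 / 2 + ε / 2) * B ≤ (n : ℝ) ^ (1 / 2 + ε / 2) * (n : ℝ) ^ θ :=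
      mul_le_mul_of_nonneg_left hBθ (by positivity)
    have h7 : (1 : ℝ) ≤ (n : ℝ) ^ (1 / 2 + ε / 2) := Real.one_le_rpow hn1 (by positivity)
    have h8 : (B : ℝ) ≤ (n : ℝ) ^ (1 / 2 + ε / 2) * (n : ℝ) ^ θ := by nlinarith
    linarith
  have hS : (n : ℝ) ^ ((1 / 2 + ε / 2) * B) ≤ ((prods (PR n) B).card : ℝ) := by
    rw [card_prods (fun p hp => (mem_PR.mp hp).2.1), Real.rpow_mul_natCast hn0.le]
    exact choose_low Kc B hB1 hBK _ (by positivity) hvB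
  have hS0 : 0 < (prods (PR n) B).card := by
    have : (0 : ℝ) < ((prods (PR n) B).card : ℝ) := lt_of_lt_of_le (by positivity) hS
    exact_mod_cast this
  set Y : ℕ := ⌊Real.exp (i + 1)⌋₊ with hY
  have hYle : (Y : ℝ) ≤ Real.exp (i + 1) := Nat.floor_le (Real.exp_pos _).le
  have hY1 : 1 ≤ Y := by
    rw [hY, Nat.one_le_floor_iff]
    exact Real.one_le_exp (by linarith)
  have hN1 : 1 ≤ n ^ B := Nat.one_le_pow _ _ (by omega)
  have hcl := sieve_int Y (n ^ B) _ (hLS Y (n ^ B) hY1 hN1) (T.image κ) (by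
      intro f hf
      obtain ⟨D, hD, rfl⟩ := Finset.mem_image.mp hf
      obtain ⟨g0, -, -, g3⟩ := hT D hD
      refine ⟨g0.2.2.1, ?_⟩
      apply Nat.le_floor
      rw [Nat.cast_natAbs, Int.cast_abs]
      exact g3.le) (prods (PR n) B) (prods_osf n B) hS0 (by
      intro f hf
      obtain ⟨D, hD, rfl⟩ := Finset.mem_image.mp hf
      obtain ⟨g0, -, -, -⟩ := hT D hD
      apply low_sum
      have hb := bad_card n (κ D) (σ D) D X g0.ne_zero g0.2.2.2.2.1 g0.2.2.2.2.2 g0.1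
      have h5 : (4 * (bad n (κ D)).card * B : ℝ) ≤ Kc := by
        have h6 : ((bad n (κ D)).card : ℝ) ≤ 2 * (n : ℝ) ^ θ := by linarith
        calc (4 * (bad n (κ D)).card * B : ℝ) ≤ 4 * (2 * (n : ℝ) ^ θ) * (n : ℝ) ^ θ := by gcongr
          _ = 8 * ((n : ℝ) ^ θ * (n : ℝ) ^ θ) := by ring
          _ ≤ _ := hnK
      exact_mod_cast h5)
  -- the bound for the number of classes
  have hcl2 : ((T.image κ).card : ℝ) ≤ 32 * C * Real.exp (ε / 8 + L + (1 / 2 - ε / 4) * i) := by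
    refine hcl.trans ?_
    have hSr : (0 : ℝ) < ((prods (PR n) B).card : ℝ) := by exact_mod_cast hS0
    rw [div_le_iff₀ hSr]
    have hNe : ((n ^ B : ℕ) : ℝ) ≤ Real.exp i := by
      push_cast
      rw [← Real.exp_log (pow_pos hn0 B), Real.log_pow]
      exact Real.exp_le_exp.2 hBi
    have h5 : ((Y : ℝ) * ((n ^ B : ℕ) : ℝ)) ^ (ε / 8) ≤ Real.exp ((2 * i + 1) * (ε / 8)) := by
      rw [Real.exp_mul]
      apply Real.rpow_le_rpow (by positivity) _ (by positivity)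
      calc (Y : ℝ) * ((n ^ B : ℕ) : ℝ) ≤ Real.exp (i + 1) * Real.exp i :=
            mul_le_mul hYle hNe (by positivity) (Real.exp_pos _).le
        _ = Real.exp (2 * i + 1) := by rw [← Real.exp_add]; congr 1; ring
    have h6 : ((Y : ℝ) + ((n ^ B : ℕ) : ℝ)) ≤ 4 * Real.exp i := by
      have h7 : Real.exp ((i : ℝ) + 1) = Real.exp i * Real.exp 1 := Real.exp_add _ _
      have h8 := Real.exp_one_lt_d9
      have h9 : 0 < Real.exp (i : ℝ) := Real.exp_pos _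
      nlinarith
    have h7 : Real.exp ((1 / 2 + ε / 2) * (i - L)) ≤ ((prods (PR n) B).card : ℝ) := by
      refine le_trans ?_ hS
      rw [Real.rpow_def_of_pos hn0]
      apply Real.exp_le_exp.2
      have h8 : (i : ℝ) - L ≤ B * L := by linarith
      have h9 := mul_le_mul_of_nonneg_left h8 (by linarith : (0 : ℝ) ≤ 1 / 2 + ε / 2)
      rw [← hL]
      linarith
    calc 8 * (C * ((Y : ℝ) * ((n ^ B : ℕ) : ℝ)) ^ (ε / 8) * ((Y : ℝ) + ((n ^ B : ℕ) : ℝ)))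
        ≤ 8 * (C * Real.exp ((2 * i + 1) * (ε / 8)) * (4 * Real.exp i)) := by gcongr
      _ = 32 * C * Real.exp ((2 * i + 1) * (ε / 8) + i) := by rw [Real.exp_add]; ring
      _ ≤ 32 * C * Real.exp (ε / 8 + L + (1 / 2 - ε / 4) * i + (1 / 2 + ε / 2) * (i - L)) := by
          apply mul_le_mul_of_nonneg_left _ (by positivity)
          apply Real.exp_le_exp.2
          nlinarith
      _ = 32 * C * Real.exp (ε / 8 + L + (1 / 2 - ε / 4) * i) *
          Real.exp ((1 / 2 + ε / 2) * (i - L)) := by rw [Real.exp_add]; ring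
      _ ≤ _ := mul_le_mul_of_nonneg_left h7 (by positivity)
  have ht := tot X (Real.exp i) _ (Real.exp_pos _) T κ σ (by
    intro D hD
    obtain ⟨⟨g1, g2, g3, g4, g5, g6⟩, -, hsm, -⟩ := hT D hD
    exact ⟨g1, g4, g5, g3.ne_zero, hsm⟩) hcl2
  refine ht.trans ?_
  have hsq : √(Real.exp i) = Real.exp (i / 2) := by
    rw [show Real.exp (i : ℝ) = Real.exp (i / 2) * Real.exp (i / 2) by
      rw [← Real.exp_add]; congr 1; ring]
    exact Real.sqrt_mul_self (Real.exp_pos _).le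
  rw [hsq]
  have h5 : 32 * C * Real.exp (ε / 8 + L + (1 / 2 - ε / 4) * i) * (√X / Real.exp (i / 2)) =
      32 * C * √X * Real.exp (ε / 8 + L - ε / 4 * i) := by
    rw [mul_div_assoc', mul_comm (32 * C * Real.exp _) (√X), mul_div_assoc, mul_div_assoc,
      ← Real.exp_sub]
    rw [show ε / 8 + L + (1 / 2 - ε / 4) * (i : ℝ) - i / 2 = ε / 8 + L - ε / 4 * i by ring]
    ring
  rw [h5]
  have h6 : Real.exp (ε / 8 + L - ε / 4 * i) ≤ Real.exp 1 * (Real.exp 1 / (n : ℝ) ^ 15) := by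
    have h7 : Real.exp 1 * (Real.exp 1 / (n : ℝ) ^ 15) = Real.exp (2 - 15 * L) := by
      have h8 : (n : ℝ) ^ 15 = Real.exp (15 * L) := by
        rw [show (15 : ℝ) * L = ((15 : ℕ) : ℝ) * L by norm_num, Real.exp_nat_mul, hL,
          Real.exp_log hn0]
      rw [h8, ← Real.exp_sub, ← Real.exp_add]
      congr 1
      ring
    rw [h7]
    apply Real.exp_le_exp.mpr
    linarith
  have h7 := Real.exp_one_lt_d9
  calc 32 * C * √X * Real.exp (ε / 8 + L - ε / 4 * i)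
      ≤ 32 * C * √X * (Real.exp 1 * (Real.exp 1 / (n : ℝ) ^ 15)) := by gcongr
    _ = √X * (32 * C * Real.exp 1) * Real.exp 1 / (n : ℝ) ^ 15 := by ring
    _ ≤ √X * (n : ℝ) * n / (n : ℝ) ^ 15 := by
        gcongr
        linarith
    _ = √X / (n : ℝ) ^ 13 := by field_simp
    _ ≤ √X / (n : ℝ) ^ 6 := by
        apply div_le_div_of_nonneg_left (Real.sqrt_nonneg _) (by positivity)
        exact pow_le_pow_right₀ hn1 (by norm_num)

lemma large (ε : ℝ) (hε : 0 < ε) (hε1 : ε ≤ 1 / 6) : ∃ A : ℝ, 0 ≤ A ∧ ∀ᶠ n : ℕ in atTop,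
    ∀ X : ℝ, Real.log X ≤ (n : ℝ) ^ (1 / 2 - ε : ℝ) → ∀ κ σ : ℤ → ℤ, ∀ T : Finset ℤ,
    (∀ D ∈ T, Good n X κ σ D ∧ (n : ℝ) ^ A < |(κ D : ℝ)|) →
    (T.card : ℝ) ≤ √X / (n : ℝ) ^ 4 := by
  classical
  obtain ⟨A, hA, h⟩ := one_class ε hε hε1
  refine ⟨A, hA, ?_⟩
  filter_upwards [h, eventually_ge_atTop 2] with n h1 hn X hX κ σ T hT
  have hn0 : (0 : ℝ) < n := by positivity
  have hn2 : (2 : ℝ) ≤ n := by exact_mod_cast hn
  have hn1 : (1 : ℝ) ≤ n := by linarith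
  have hnθ : (n : ℝ) ^ (1 / 2 - ε : ℝ) ≤ n := by
    calc (n : ℝ) ^ (1 / 2 - ε : ℝ) ≤ (n : ℝ) ^ (1 : ℝ) :=
          Real.rpow_le_rpow_of_exponent_le hn1 (by linarith)
      _ = n := Real.rpow_one _
  have hlog : ∀ D ∈ T, 0 ≤ Real.log |(κ D : ℝ)| ∧
      Real.log |(κ D : ℝ)| ≤ (n : ℝ) ^ (1 / 2 - ε : ℝ) := by
    intro D hD
    obtain ⟨⟨g1, g2, g3, g4, g5, g6⟩, -⟩ := hT D hD
    have hk1 : (1 : ℝ) ≤ |(κ D : ℝ)| := by
      have : (1 : ℤ) ≤ |κ D| := Int.one_le_abs g3.ne_zero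
      have h' : ((1 : ℤ) : ℝ) ≤ ((|κ D| : ℤ) : ℝ) := by exact_mod_cast this
      rwa [Int.cast_abs, Int.cast_one] at h'
    refine ⟨Real.log_nonneg hk1, le_trans ?_ hX⟩
    apply Real.log_le_log (by linarith)
    refine le_trans ?_ g1
    conv_rhs => rw [g5]
    push_cast
    rw [abs_mul]
    have hs1 : (1 : ℝ) ≤ |(σ D : ℝ) ^ 2| := by
      have : (1 : ℝ) ≤ (σ D : ℝ) := by exact_mod_cast g4
      rw [abs_of_nonneg (sq_nonneg _)]
      nlinarith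
    nlinarith [abs_nonneg (κ D : ℝ)]
  have hmaps : ∀ D ∈ T, ⌊Real.log |(κ D : ℝ)|⌋₊ ∈ range (n + 1) := by
    intro D hD
    rw [mem_range, Nat.lt_succ_iff]
    apply Nat.floor_le_of_le
    exact (hlog D hD).2.trans hnθ
  have hsum := Finset.card_eq_sum_card_fiberwise (f := fun D : ℤ => ⌊Real.log |(κ D : ℝ)|⌋₊)
    (s := T) (t := range (n + 1)) (fun D hD => hmaps D hD)
  have hsum' : (T.card : ℝ) = ∑ i ∈ range (n + 1),
      ((T.filter fun D : ℤ => ⌊Real.log |(κ D : ℝ)|⌋₊ = i).card : ℝ) := by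
    exact_mod_cast hsum
  have hone : ∀ i ∈ range (n + 1),
      ((T.filter fun D : ℤ => ⌊Real.log |(κ D : ℝ)|⌋₊ = i).card : ℝ) ≤ √X / (n : ℝ) ^ 6 := by
    intro i _
    rcases (T.filter fun D : ℤ => ⌊Real.log |(κ D : ℝ)|⌋₊ = i).eq_empty_or_nonempty with h0 | h0
    · rw [h0, card_empty, Nat.cast_zero]; positivity
    obtain ⟨D₀, hD₀⟩ := h0
    rw [mem_filter] at hD₀
    have hi : (i : ℝ) ≤ (n : ℝ) ^ (1 / 2 - ε : ℝ) := by
      rw [← hD₀.2]
      exact (Nat.floor_le (hlog D₀ hD₀.1).1).trans (hlog D₀ hD₀.1).2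
    apply h1 X hX κ σ i hi
    intro D hD
    rw [mem_filter] at hD
    have hk : 0 < |(κ D : ℝ)| := by
      have := (hT D hD.1).1.2.2.1.ne_zero
      have : (κ D : ℝ) ≠ 0 := by exact_mod_cast this
      positivity
    refine ⟨(hT D hD.1).1, (hT D hD.1).2, ?_, ?_⟩
    · rw [← Real.le_log_iff_exp_le hk, ← hD.2]
      exact Nat.floor_le (hlog D hD.1).1
    · rw [← Real.log_lt_iff_lt_exp hk, ← hD.2]
      exact Nat.lt_floor_add_one _
  rw [hsum']
  calc ∑ i ∈ range (n + 1), ((T.filter fun D : ℤ => ⌊Real.log |(κ D : ℝ)|⌋₊ = i).card : ℝ)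
      ≤ ∑ _i ∈ range (n + 1), √X / (n : ℝ) ^ 6 := sum_le_sum hone
    _ = ((n : ℝ) + 1) * (√X / (n : ℝ) ^ 6) := by
        rw [sum_const, nsmul_eq_mul, card_range]; push_cast; ring
    _ ≤ ((n : ℝ) ^ 2) * (√X / (n : ℝ) ^ 6) := by
        apply mul_le_mul_of_nonneg_right _ (by positivity)
        nlinarith
    _ = √X / (n : ℝ) ^ 4 := by field_simp

end Pool.Agent.T4h91.EH
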