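import Pool.Agent.T3h91.EC.Many
import Pool.Agent.R852.LK.Cnt
import Pool.Agent.W57.SW.Base

set_option autoImplicit false

/-! Pairs the discriminant of which is a square modulo `4 n!` satisfy the Riemann-Roch conditions. -/

open Finset Polynomial

namespace Pool.Agent.T4h91.EH

open Pool.Agent.R920.CH

/-- `D` is a square modulo `m` -/
def SqM (D : ℤ) (m : ℕ) : Prop := ∃ s : ℤ, (m : ℤ) ∣ D - s ^ 2

lemma SqM_odd (D : ℤ) (p : ℕ) (hp : p.Prime) (hp2 : p ≠ 2) (h0 : ¬ (p : ℤ) ∣ D) (h : SqM D p) :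
    ∀ k : ℕ, SqM D (p ^ (k + 1)) := by
  intro k
  induction k with
  | zero => simpa using h
  | succ k ih =>
    obtain ⟨s, u, hu⟩ := ih
    push_cast at hu
    have hps : ¬ (p : ℤ) ∣ s := by
      intro hs
      apply h0
      have e : D = (p : ℤ) ^ (k + 1) * u + s ^ 2 := by linarith
      rw [e]
      apply dvd_add
      · exact Dvd.dvd.mul_right (dvd_pow_self _ (by omega)) _
      · exact Dvd.dvd.pow hs (by norm_num)
    have hpi := Nat.prime_iff_prime_int.1 hp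
    have hp2s : ¬ (p : ℤ) ∣ 2 * s := by
      intro hd
      rcases hpi.dvd_or_dvd hd with hd | hd
      · have h3 : p ∣ 2 := by exact_mod_cast hd
        rcases (Nat.dvd_prime Nat.prime_two).1 h3 with h4 | h4
        · exact hp.one_lt.ne' h4
        · exact hp2 h4
      · exact hps hd
    obtain ⟨b, a, hab⟩ := (Irreducible.coprime_iff_not_dvd hpi.irreducible).mpr hp2s
    -- `b * p + a * (2 * s) = 1`
    refine ⟨s + (p : ℤ) ^ (k + 1) * (u * a), u * b - (p : ℤ) ^ k * (u * a) ^ 2, ?_⟩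
    push_cast
    have e : D - (s + (p : ℤ) ^ (k + 1) * (u * a)) ^ 2 =
        (D - s ^ 2) - (p : ℤ) ^ (k + 1) * u * (a * (2 * s)) - ((p : ℤ) ^ (k + 1) * (u * a)) ^ 2 := by ring
    have e2 : a * (2 * s) = 1 - b * p := by linarith
    rw [e, hu, e2]
    ring

lemma SqM_two (D : ℤ) (h : (8 : ℤ) ∣ D - 1) : ∀ k : ℕ, SqM D (2 ^ (k + 3)) := by
  intro k
  induction k with
  | zero => exact ⟨1, by simpa using h⟩
  | succ k ih =>
    obtain ⟨s, u, hu⟩ := ih
    push_cast at hu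
    have hs : Odd s := by
      by_contra hs
      rw [Int.not_odd_iff_even] at hs
      obtain ⟨r, hr⟩ := hs
      obtain ⟨w, hw⟩ := h
      have e : (2 : ℤ) ^ (k + 3) = 8 * 2 ^ k := by ring
      rw [e, hr] at hu
      have : (8 * w + 1) - (r + r) ^ 2 = 8 * 2 ^ k * u := by
        rw [← hu]; linarith
      have h5 : (1 : ℤ) = 2 * (4 * 2 ^ k * u - 4 * w + 2 * r ^ 2) := by linarith
      omega
    obtain ⟨r, hr⟩ := hs
    refine ⟨s + 2 ^ (k + 2) * u, -(u * r) - 2 ^ k * u ^ 2, ?_⟩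
    push_cast
    have e : D - (s + 2 ^ (k + 2) * u) ^ 2 = (D - s ^ 2) - 2 ^ (k + 3) * s * u - (2 ^ (k + 2) * u) ^ 2 := by
      ring
    rw [e, hu, hr]
    ring

lemma SqM_dvd {D : ℤ} {a b : ℕ} (h : a ∣ b) (hb : SqM D b) : SqM D a := by
  obtain ⟨s, hs⟩ := hb
  exact ⟨s, dvd_trans (by exact_mod_cast h) hs⟩

lemma SqM_mul (D : ℤ) (a b : ℕ) (hab : a.Coprime b) (ha : SqM D a) (hb : SqM D b) : SqM D (a * b) := by
  obtain ⟨s, hs⟩ := ha
  obtain ⟨t, ht⟩ := hb
  have hc : IsCoprime (a : ℤ) (b : ℤ) := Nat.isCoprime_iff_coprime.2 hab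
  obtain ⟨u, v, huv⟩ := hc
  refine ⟨s * (v * b) + t * (u * a), ?_⟩
  push_cast
  apply IsCoprime.mul_dvd (Nat.isCoprime_iff_coprime.2 hab)
  · have e : D - (s * (v * b) + t * (u * a)) ^ 2 = (D - s ^ 2) +
        (a : ℤ) * (u * (s - t) * (2 * s * (v * b) + s * (u * a) + t * (u * a))) := by
      have e1 : v * (b : ℤ) = 1 - u * a := by linarith
      rw [e1]; ring
    rw [e]
    exact dvd_add hs (dvd_mul_right _ _)
  · have e : D - (s * (v * b) + t * (u * a)) ^ 2 = (D - t ^ 2) +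
        (b : ℤ) * (v * (t - s) * (2 * t * (u * a) + t * (v * b) + s * (v * b))) := by
      have e1 : u * (a : ℤ) = 1 - v * b := by linarith
      rw [e1]; ring
    rw [e]
    exact dvd_add ht (dvd_mul_right _ _)

lemma SqM_all (D : ℤ) (m : ℕ) : m ≠ 0 → (∀ p : ℕ, p.Prime → p ∣ m → ∀ k, SqM D (p ^ k)) → SqM D m := by
  induction m using Nat.recOnPrimeCoprime with
  | zero => intro h; exact absurd rfl h
  | prime_pow p k hp =>
    intro _ h
    rcases Nat.eq_zero_or_pos k with rfl | hk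
    · exact ⟨0, by simp⟩
    · exact h p hp (dvd_pow_self p (by omega)) k
  | coprime a b ha hb hab iha ihb =>
    intro _ h
    exact SqM_mul D a b hab (iha (by omega) fun p hp hd => h p hp (Dvd.dvd.mul_right hd _))
      (ihb (by omega) fun p hp hd => h p hp (Dvd.dvd.mul_left hd _))

/-- twisting by a line bundle -/
lemma rr_shift (n : ℕ) (c₁ c₂ b : ℤ) (h : RiemannRoch n (poly2 (c₁ - 2 * b) (b ^ 2 - c₁ * b + c₂))) :
    RiemannRoch n (poly2 c₁ c₂) := by
  intro f hfi hfd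
  obtain ⟨z, hz⟩ := h (f.comp (X + C (b : ℚ))) (by
      intro m
      obtain ⟨z, hz⟩ := hfi (m + b)
      refine ⟨z, ?_⟩
      rw [eval_comp, eval_add, eval_X, eval_C]
      push_cast at hz
      exact hz) (by
      rw [natDegree_comp, natDegree_X_add_C, mul_one]
      exact hfd)
  refine ⟨z, ?_⟩
  rw [← hz]
  obtain ⟨x, y, hxy, h1, h2⟩ := roots2 c₁ c₂
  obtain ⟨x', y', hxy', h1', h2'⟩ := roots2 (c₁ - 2 * b) (b ^ 2 - c₁ * b + c₂)
  rw [hxy, hxy']
  push_cast at h1' h2'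
  have hsum : ∀ (u v : ℂ) (g : ℚ[X]), ((({u, v} : Multiset ℂ).map fun x => aeval x g).sum) =
      aeval u g + aeval v g := by
    intro u v g
    simp
  rw [hsum, hsum]
  have hcomp : ∀ u : ℂ, aeval u (f.comp (X + C (b : ℚ))) = aeval (u + b) f := by
    intro u
    rw [aeval_comp, map_add, aeval_X, aeval_C]
    congr 2
  rw [hcomp, hcomp]
  have hfac : (x - b - x') * (x - b - y') = 0 := by
    have e : (x - b - x') * (x - b - y') = (x - b) ^ 2 - (x' + y') * (x - b) + x' * y' := by ring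
    rw [e, h1', h2', ← h1, ← h2]
    ring
  rcases mul_eq_zero.1 hfac with h3 | h3
  · have e1 : x' + b = x := by linear_combination -h3
    have e2 : y' + b = y := by linear_combination h1' - h1 + h3
    rw [e1, e2]
  · have e1 : y' + b = x := by linear_combination -h3
    have e2 : x' + b = y := by linear_combination h1' - h1 + h3
    rw [e1, e2, add_comm]

lemma rr_of_sq (n : ℕ) (c₁ c₂ : ℤ) (h : SqM (c₁ ^ 2 - 4 * c₂) (4 * n.factorial)) :
    RiemannRoch n (poly2 c₁ c₂) := by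
  obtain ⟨s, hs⟩ := h
  push_cast at hs
  have h4 : (4 : ℤ) ∣ c₁ ^ 2 - s ^ 2 := by
    have h5 : (4 : ℤ) ∣ c₁ ^ 2 - 4 * c₂ - s ^ 2 := dvd_trans (dvd_mul_right _ _) hs
    have e : c₁ ^ 2 - s ^ 2 = (c₁ ^ 2 - 4 * c₂ - s ^ 2) + 4 * c₂ := by ring
    rw [e]
    exact dvd_add h5 (dvd_mul_right _ _)
  have h2 : ∃ b : ℤ, c₁ + s = 2 * b := by
    rcases Int.even_or_odd (c₁ + s) with ⟨b, hb⟩ | ⟨b, hb⟩
    · exact ⟨b, by linarith⟩
    · exfalso
      obtain ⟨w, hw⟩ := h4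
      have e : c₁ ^ 2 - s ^ 2 = (c₁ + s) * (c₁ + s - 2 * s) := by ring
      rw [e, hb] at hw
      have e2 : (2 * b + 1) * (2 * b + 1 - 2 * s) = 2 * (2 * b ^ 2 + 2 * b - 2 * b * s - s) + 1 := by ring
      omega
  obtain ⟨b, hb⟩ := h2
  apply rr_shift n c₁ c₂ b
  apply Pool.Agent.T3h91.EC.rr_mod
  have h5 : (4 * ((n.factorial : ℕ) : ℤ)) ∣ 4 * (b ^ 2 - c₁ * b + c₂) := by
    have e : 4 * (b ^ 2 - c₁ * b + c₂) = -(c₁ ^ 2 - 4 * c₂ - s ^ 2) := by
      have e2 : s = 2 * b - c₁ := by linarith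
      rw [e2]; ring
    rw [e]
    exact (dvd_neg).2 hs
  exact Int.dvd_of_mul_dvd_mul_left (by norm_num) h5

end Pool.Agent.T4h91.EH
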